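import Pool.Agent.Q35.EO.Stm

/-!
EO-DE (project EO of helper35): the abstract descent.
-/

set_option autoImplicit false

namespace Pool.Agent.Q227.EO

open Finset Function Filter Topology

section De

variable {ι : Type} [Fintype ι] [DecidableEq ι]

noncomputable def Pw (E : ι → ℕ) (b : ι → ℕ) : ℝ := ∏ l, (b l : ℝ) ^ E l

theorem one_le_Pw (E b : ι → ℕ) (hb : ∀ l, 1 ≤ b l) : 1 ≤ Pw E b := by
  unfold Pw
  have : ∀ l ∈ (univ : Finset ι), (1 : ℝ) ≤ (b l : ℝ) ^ E l := by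
    intro l _
    exact one_le_pow₀ (by exact_mod_cast hb l)
  calc (1 : ℝ) = ∏ _l : ι, (1 : ℝ) := by simp
    _ ≤ _ := Finset.prod_le_prod (fun _ _ => by norm_num) this

theorem Pw_update (E b : ι → ℕ) (i : ι) (ρ : ℕ) :
    Pw E (update b i ρ) * (b i : ℝ) ^ E i = Pw E b * (ρ : ℝ) ^ E i := by
  unfold Pw
  rw [← Finset.mul_prod_erase univ (fun l => ((update b i ρ l : ℕ) : ℝ) ^ E l) (mem_univ i),
    ← Finset.mul_prod_erase univ (fun l => (b l : ℝ) ^ E l) (mem_univ i)]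
  have : ∏ l ∈ univ.erase i, ((update b i ρ l : ℕ) : ℝ) ^ E l =
      ∏ l ∈ univ.erase i, (b l : ℝ) ^ E l := by
    refine Finset.prod_congr rfl fun l hl => ?_
    rw [update_of_ne (Finset.ne_of_mem_erase hl)]
  rw [this]
  simp only [update_self]
  ring

/-- Reduction of all coordinates, one-sided. -/
theorem red1 (g : (ι → ℕ) → ℝ) (M ρ : ℕ) (c : ℝ) (hc : 0 ≤ c) (hρ : 1 ≤ ρ)
    (h : ∀ (b : ι → ℕ) (i : ι), (∀ l, 1 ≤ b l) → (∀ l, b l ≤ M) → ρ ≤ b i →
      g b ≤ g (update b i ρ) + c) (b : ι → ℕ) (h1 : ∀ l, 1 ≤ b l) (hM : ∀ l, b l ≤ M) :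
    g b ≤ g (fun l => min (b l) ρ) + Fintype.card ι * c := by
  have key : ∀ T : Finset ι, g b ≤ g (fun l => if l ∈ T then min (b l) ρ else b l) + T.card * c := by
    intro T
    induction T using Finset.induction_on with
    | empty => simp
    | insert i T hi ih =>
      refine ih.trans ?_
      rw [Finset.card_insert_of_notMem hi]
      push_cast
      by_cases hb : ρ ≤ b i
      · have h2 := h (fun l => if l ∈ T then min (b l) ρ else b l) i (fun l => by
          split_ifs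
          · exact le_min (h1 l) hρ
          · exact h1 l) (fun l => by
          split_ifs
          · exact (min_le_left _ _).trans (hM l)
          · exact hM l) (by simp [hi, hb])
        have h3 : update (fun l => if l ∈ T then min (b l) ρ else b l) i ρ =
            fun l => if l ∈ insert i T then min (b l) ρ else b l := by
          funext l
          by_cases hl : l = i
          · subst hl
            simp [hb]
          · rw [update_of_ne hl]
            simp [hl]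
        rw [h3] at h2
        nlinarith
      · have h3 : (fun l => if l ∈ T then min (b l) ρ else b l) =
            fun l => if l ∈ insert i T then min (b l) ρ else b l := by
          funext l
          by_cases hl : l = i
          · subst hl
            have : b l ≤ ρ := (not_le.1 hb).le
            simp [hi, this]
          · simp [hl]
        rw [h3]
        nlinarith
  have := key univ
  simpa using this

/-- Reduction of all coordinates, two-sided. -/
theorem red2 (g : (ι → ℕ) → ℝ) (M ρ : ℕ) (c : ℝ) (hc : 0 ≤ c) (hρ : 1 ≤ ρ)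
    (h : ∀ (b : ι → ℕ) (i : ι), (∀ l, 1 ≤ b l) → (∀ l, b l ≤ M) → ρ ≤ b i →
      |g b - g (update b i ρ)| ≤ c) (b : ι → ℕ) (h1 : ∀ l, 1 ≤ b l) (hM : ∀ l, b l ≤ M) :
    |g b - g (fun l => min (b l) ρ)| ≤ Fintype.card ι * c := by
  have e1 := red1 g M ρ c hc hρ (fun b i h1 h2 h3 => by
    have := abs_le.1 (h b i h1 h2 h3); linarith [this.2]) b h1 hM
  have e2 := red1 (fun b => - g b) M ρ c hc hρ (fun b i h1 h2 h3 => by
    have := abs_le.1 (h b i h1 h2 h3); linarith [this.1]) b h1 hM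
  rw [abs_le]
  constructor <;> linarith

theorem thr (θ η : ℝ) (h0 : 0 < θ) (h1 : θ < 1) (hη : 0 < η) :
    ∃ M0 : ℕ, 1 ≤ M0 ∧ ∀ M : ℕ, M0 ≤ M → ⌈(M : ℝ) ^ θ⌉₊ < M ∧
      2 * (M : ℝ) ^ (-η) ≤ (⌈(M : ℝ) ^ θ⌉₊ : ℝ) ^ (-η) := by
  set κ : ℝ := 2 ^ (-(1 / η)) with hκ
  have κpos : 0 < κ := Real.rpow_pos_of_pos (by norm_num) _
  have κlt : κ < 1 := by
    rw [hκ]
    exact Real.rpow_lt_one_of_one_lt_of_neg (by norm_num) (by
      have : 0 < 1 / η := by positivity
      linarith)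
  have ht : Tendsto (fun M : ℕ => (M : ℝ) ^ (1 - θ)) atTop atTop :=
    (tendsto_rpow_atTop (by linarith)).comp tendsto_natCast_atTop_atTop
  obtain ⟨M0, hM0⟩ := eventually_atTop.1 (ht.eventually_ge_atTop (2 / κ))
  refine ⟨max M0 1, le_max_right _ _, fun M hM => ?_⟩
  have hM1 : 1 ≤ M := (le_max_right _ _).trans hM
  have hMr : (1 : ℝ) ≤ M := by exact_mod_cast hM1
  have h2 := hM0 M ((le_max_left _ _).trans hM)
  have hθ1 : (1 : ℝ) ≤ (M : ℝ) ^ θ := Real.one_le_rpow hMr h0.le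
  have hc : (⌈(M : ℝ) ^ θ⌉₊ : ℝ) < (M : ℝ) ^ θ + 1 := Nat.ceil_lt_add_one (by positivity)
  have hs : (M : ℝ) ^ θ * (M : ℝ) ^ (1 - θ) = M := by
    rw [← Real.rpow_add (by linarith)]
    simp
  have h3 : (⌈(M : ℝ) ^ θ⌉₊ : ℝ) ≤ κ * M := by
    have h4 : 2 * (M : ℝ) ^ θ ≤ κ * M := by
      have : 2 ≤ (M : ℝ) ^ (1 - θ) * κ := by rwa [div_le_iff₀ κpos] at h2
      have h5 : 2 * (M : ℝ) ^ θ ≤ ((M : ℝ) ^ (1 - θ) * κ) * (M : ℝ) ^ θ :=
        mul_le_mul_of_nonneg_right this (by linarith)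
      have h6 : ((M : ℝ) ^ (1 - θ) * κ) * (M : ℝ) ^ θ = κ * M := by
        calc ((M : ℝ) ^ (1 - θ) * κ) * (M : ℝ) ^ θ = κ * ((M : ℝ) ^ θ * (M : ℝ) ^ (1 - θ)) := by
              ring
          _ = κ * M := by rw [hs]
      linarith
    linarith
  have hcpos : (0 : ℝ) < (⌈(M : ℝ) ^ θ⌉₊ : ℝ) := by
    have : (M : ℝ) ^ θ ≤ ⌈(M : ℝ) ^ θ⌉₊ := Nat.le_ceil _
    linarith
  constructor
  · have : (⌈(M : ℝ) ^ θ⌉₊ : ℝ) < M := by nlinarith
    exact_mod_cast this
  · have h5 : (κ * M) ^ (-η) ≤ (⌈(M : ℝ) ^ θ⌉₊ : ℝ) ^ (-η) :=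
      Real.rpow_le_rpow_of_nonpos hcpos h3 (by linarith)
    have h6 : κ ^ (-η) = 2 := by
      rw [hκ, ← Real.rpow_mul (by norm_num)]
      have : -(1 / η) * -η = 1 := by field_simp
      rw [this, Real.rpow_one]
    rw [Real.mul_rpow κpos.le (by linarith), h6] at h5
    exact h5

theorem de : Pool.Agent.Q35.EO.S_DE := by
  intro ι _ _ E θ η C A0 hθ0 hθ1 hη hC
  rcases isEmpty_or_nonempty ι with hemp | hne
  · refine ⟨0, 1, le_rfl, one_pos, fun F hF _ _ => ?_⟩
    refine ⟨F (fun l => (hemp.false l).elim), hF _, fun b m hm hb => ?_⟩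
    have : b = fun l => (hemp.false l).elim := Subsingleton.elim _ _
    rw [this]
    simp
  obtain ⟨M0, hM01, hthr⟩ := thr θ η hθ0 hθ1 hη
  set s : ℝ := (Fintype.card ι : ℝ) with hs
  have hs0 : 0 ≤ s := by positivity
  set L0 : ℝ := Real.log (1 + |A0 M0|) + s * C with hL0
  set T1 : ℝ := Real.exp L0 with hT1
  have hT1pos : 0 < T1 := Real.exp_pos _
  set C1 : ℝ := C * T1 with hC1
  have hC10 : 0 ≤ C1 := mul_nonneg hC hT1pos.le
  refine ⟨4 * (s * C1) + T1 * (M0 : ℝ) ^ η, η, by positivity, hη, fun F hF hA hst => ?_⟩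
  set R : (ι → ℕ) → ℝ := fun b => F b / Pw E b with hR
  have hPpos : ∀ b : ι → ℕ, (∀ l, 1 ≤ b l) → 0 < Pw E b := fun b hb =>
    lt_of_lt_of_le one_pos (one_le_Pw E b hb)
  have hR0 : ∀ b : ι → ℕ, (∀ l, 1 ≤ b l) → 0 ≤ R b := fun b hb =>
    div_nonneg (hF b) (hPpos b hb).le
  -- the step for R
  have hstep : ∀ (b : ι → ℕ) (M : ℕ) (i : ι), (∀ l, 1 ≤ b l) → (∀ l, b l ≤ M) →
      ⌈(M : ℝ) ^ θ⌉₊ ≤ b i →
      |R b - R (update b i ⌈(M : ℝ) ^ θ⌉₊)| ≤
        C * (M : ℝ) ^ (-η) * (R (update b i ⌈(M : ℝ) ^ θ⌉₊) + 1) := by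
    intro b M i h1 hM hi
    have hM1 : 1 ≤ M := (h1 i).trans (hM i)
    have hMr : (1 : ℝ) ≤ M := by exact_mod_cast hM1
    have hρ1 : 1 ≤ ⌈(M : ℝ) ^ θ⌉₊ := by
      rw [Nat.one_le_ceil_iff]
      positivity
    have hst' := hst b M i h1 hM hi
    set ρ := ⌈(M : ℝ) ^ θ⌉₊ with hρ
    have hb' : ∀ l, 1 ≤ update b i ρ l := by
      intro l
      by_cases hl : l = i
      · subst hl; simpa using hρ1
      · rw [update_of_ne hl]; exact h1 l
    have hP := hPpos b h1
    have hP' := hPpos _ hb'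
    have hup := Pw_update E b i ρ
    have hbi : (0 : ℝ) < (b i : ℝ) ^ E i := by
      have : (0 : ℝ) < b i := by exact_mod_cast h1 i
      positivity
    have hρi : (0 : ℝ) < (ρ : ℝ) ^ E i := by
      have : (0 : ℝ) < ρ := by exact_mod_cast hρ1
      positivity
    have e1 : R b - R (update b i ρ) =
        (F b * (ρ : ℝ) ^ E i - F (update b i ρ) * (b i : ℝ) ^ E i) /
          (Pw E (update b i ρ) * (b i : ℝ) ^ E i) := by
      have ea : R b = F b * (ρ : ℝ) ^ E i / (Pw E (update b i ρ) * (b i : ℝ) ^ E i) := by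
        rw [hup, hR]
        field_simp
      have eb : R (update b i ρ) = F (update b i ρ) * (b i : ℝ) ^ E i /
          (Pw E (update b i ρ) * (b i : ℝ) ^ E i) := by
        rw [hR]
        field_simp
      rw [ea, eb]
      ring
    rw [e1, abs_div, abs_of_pos (mul_pos hP' hbi), div_le_iff₀ (mul_pos hP' hbi)]
    refine hst'.trans (le_of_eq ?_)
    have e2 : ∏ l, ((update b i ρ l : ℕ) : ℝ) ^ E l = Pw E (update b i ρ) := rfl
    rw [e2]
    have e3 : F (update b i ρ) = R (update b i ρ) * Pw E (update b i ρ) := by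
      rw [hR]
      field_simp
    rw [e3]
    ring
  -- boundedness
  have hMle1 : ∀ M : ℕ, 1 ≤ M → (M : ℝ) ^ (-η) ≤ 1 := fun M hM =>
    Real.rpow_le_one_of_one_le_of_nonpos (by exact_mod_cast hM) (by linarith)
  have hlog : ∀ M : ℕ, 1 ≤ M → ∀ b : ι → ℕ, (∀ l, 1 ≤ b l) → (∀ l, b l ≤ M) →
      Real.log (R b + 1) ≤ L0 - s * C * (M : ℝ) ^ (-η) := by
    intro M
    induction M using Nat.strong_induction_on with
    | _ M ih =>
      intro hM1 b h1 hM
      rcases lt_or_ge M M0 with hlt | hge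
      · have e1 : R b ≤ |A0 M0| := by
          have h2 := hA b M0 (fun l => (hM l).trans hlt.le)
          have h3 : R b ≤ F b := div_le_self (hF b) (one_le_Pw E b h1)
          exact h3.trans (h2.trans (le_abs_self _))
        have e2 : Real.log (R b + 1) ≤ Real.log (1 + |A0 M0|) :=
          Real.log_le_log (by linarith [hR0 b h1]) (by linarith)
        have e3 : s * C * (M : ℝ) ^ (-η) ≤ s * C := by
          have := hMle1 M hM1
          have h4 : 0 ≤ s * C := mul_nonneg hs0 hC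
          nlinarith
        rw [hL0]
        linarith
      · obtain ⟨hρlt, hρ2⟩ := hthr M hge
        have hρ1 : 1 ≤ ⌈(M : ℝ) ^ θ⌉₊ := by
          rw [Nat.one_le_ceil_iff]
          have : (0 : ℝ) < M := by exact_mod_cast hM1
          positivity
        set ρ := ⌈(M : ℝ) ^ θ⌉₊ with hρ
        have hc : 0 ≤ C * (M : ℝ) ^ (-η) := by positivity
        have e1 := red1 (fun b => Real.log (R b + 1)) M ρ (C * (M : ℝ) ^ (-η)) hc hρ1
          (fun b i g1 g2 g3 => by
            have h5 := hstep b M i g1 g2 g3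
            rw [← hρ] at h5
            have hb' : ∀ l, 1 ≤ update b i ρ l := by
              intro l
              by_cases hl : l = i
              · subst hl; simpa using hρ1
              · rw [update_of_ne hl]; exact g1 l
            have h6 : R b + 1 ≤ (R (update b i ρ) + 1) * Real.exp (C * (M : ℝ) ^ (-η)) := by
              have h7 := (abs_le.1 h5).2
              have h8 := Real.add_one_le_exp (C * (M : ℝ) ^ (-η))
              have h9 := hR0 _ hb'
              nlinarith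
            have h10 : 0 < R (update b i ρ) + 1 := by linarith [hR0 _ hb']
            have h11 := Real.log_le_log (by linarith [hR0 b g1]) h6
            rw [Real.log_mul h10.ne' (Real.exp_pos _).ne', Real.log_exp] at h11
            exact h11) b h1 hM
        have e2 := ih ρ hρlt hρ1 (fun l => min (b l) ρ) (fun l => le_min (h1 l) hρ1)
          (fun l => min_le_right _ _)
        have h4 : 0 ≤ s * C := mul_nonneg hs0 hC
        have e3 : s * C * (2 * (M : ℝ) ^ (-η)) ≤ s * C * (ρ : ℝ) ^ (-η) :=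
          mul_le_mul_of_nonneg_left hρ2 h4
        have e4 : (Fintype.card ι : ℝ) * (C * (M : ℝ) ^ (-η)) = s * C * (M : ℝ) ^ (-η) := by
          rw [hs]; ring
        rw [e4] at e1
        linarith
  have hbd : ∀ b : ι → ℕ, (∀ l, 1 ≤ b l) → R b + 1 ≤ T1 := by
    intro b h1
    have hM : ∀ l, b l ≤ ∑ l, b l := fun l => Finset.single_le_sum (fun _ _ => Nat.zero_le _)
      (mem_univ l)
    obtain ⟨l0⟩ := hne
    have e1 := hlog (∑ l, b l) ((h1 l0).trans (hM l0)) b h1 hM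
    have e2 : 0 ≤ s * C * ((∑ l, b l : ℕ) : ℝ) ^ (-η) := by positivity
    have e3 : Real.log (R b + 1) ≤ L0 := by linarith
    rw [hT1]
    exact (Real.log_le_iff_le_exp (by linarith [hR0 b h1])).1 e3
  have hstep2 : ∀ (M : ℕ) (b : ι → ℕ) (i : ι), (∀ l, 1 ≤ b l) → (∀ l, b l ≤ M) →
      ⌈(M : ℝ) ^ θ⌉₊ ≤ b i →
      |R b - R (update b i ⌈(M : ℝ) ^ θ⌉₊)| ≤ C1 * (M : ℝ) ^ (-η) := by
    intro M b i h1 hM hi
    have hM1 : 1 ≤ M := (h1 i).trans (hM i)
    have hρ1 : 1 ≤ ⌈(M : ℝ) ^ θ⌉₊ := by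
      rw [Nat.one_le_ceil_iff]
      have : (0 : ℝ) < M := by exact_mod_cast hM1
      positivity
    refine (hstep b M i h1 hM hi).trans ?_
    have hb' : ∀ l, 1 ≤ update b i ⌈(M : ℝ) ^ θ⌉₊ l := by
      intro l
      by_cases hl : l = i
      · subst hl; simpa using hρ1
      · rw [update_of_ne hl]; exact h1 l
    have e1 := hbd _ hb'
    have e2 : 0 ≤ C * (M : ℝ) ^ (-η) := by positivity
    calc C * (M : ℝ) ^ (-η) * (R (update b i ⌈(M : ℝ) ^ θ⌉₊) + 1)
        ≤ C * (M : ℝ) ^ (-η) * T1 := mul_le_mul_of_nonneg_left e1 e2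
      _ = C1 * (M : ℝ) ^ (-η) := by rw [hC1]; ring
  have hred : ∀ (M : ℕ) (b : ι → ℕ), 1 ≤ M → (∀ l, 1 ≤ b l) → (∀ l, b l ≤ M) →
      |R b - R (fun l => min (b l) ⌈(M : ℝ) ^ θ⌉₊)| ≤ s * C1 * (M : ℝ) ^ (-η) := by
    intro M b hM1 h1 hM
    have hρ1 : 1 ≤ ⌈(M : ℝ) ^ θ⌉₊ := by
      rw [Nat.one_le_ceil_iff]
      have : (0 : ℝ) < M := by exact_mod_cast hM1
      positivity
    have := red2 R M ⌈(M : ℝ) ^ θ⌉₊ (C1 * (M : ℝ) ^ (-η)) (by positivity) hρ1
      (fun b i g1 g2 g3 => hstep2 M b i g1 g2 g3) b h1 hM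
    calc _ ≤ _ := this
      _ = _ := by rw [hs]; ring
  -- oscillation
  have hosc1 : ∀ m : ℕ, M0 ≤ m → 1 ≤ m → ∃ ref : ι → ℕ, ∀ M : ℕ, m ≤ M → ∀ b : ι → ℕ,
      (∀ l, m ≤ b l) → (∀ l, b l ≤ M) →
      |R b - R ref| ≤ 2 * (s * C1) * (m : ℝ) ^ (-η) - s * C1 * (M : ℝ) ^ (-η) := by
    intro m hm0 hm1
    have hmr : (1 : ℝ) ≤ m := by exact_mod_cast hm1
    have hsC : 0 ≤ s * C1 := mul_nonneg hs0 hC10
    set N : ℕ := ⌊(m : ℝ) ^ (1 / θ)⌋₊ with hN
    have hNm : m ≤ N := by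
      rw [hN]
      apply Nat.le_floor
      calc (m : ℝ) = (m : ℝ) ^ (1 : ℝ) := (Real.rpow_one _).symm
        _ ≤ _ := Real.rpow_le_rpow_of_exponent_le hmr (by
          rw [le_div_iff₀ hθ0]; linarith)
    have hN1 : 1 ≤ N := hm1.trans hNm
    have hρN : ⌈(N : ℝ) ^ θ⌉₊ ≤ m := by
      apply Nat.ceil_le.2
      have e1 : (N : ℝ) ≤ (m : ℝ) ^ (1 / θ) := Nat.floor_le (by positivity)
      calc (N : ℝ) ^ θ ≤ ((m : ℝ) ^ (1 / θ)) ^ θ :=
            Real.rpow_le_rpow (by positivity) e1 hθ0.le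
        _ = m := by
          rw [← Real.rpow_mul (by positivity)]
          have : 1 / θ * θ = 1 := by field_simp
          rw [this, Real.rpow_one]
    refine ⟨fun _ => ⌈(N : ℝ) ^ θ⌉₊, ?_⟩
    intro M
    induction M using Nat.strong_induction_on with
    | _ M ih =>
      intro hmM b hmb hbM
      have hMr : (1 : ℝ) ≤ M := by exact_mod_cast hm1.trans hmM
      have hMm : (M : ℝ) ^ (-η) ≤ (m : ℝ) ^ (-η) :=
        Real.rpow_le_rpow_of_nonpos (by linarith) (by exact_mod_cast hmM) (by linarith)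
      have h1 : ∀ l, 1 ≤ b l := fun l => hm1.trans (hmb l)
      rcases le_or_gt M N with hMN | hMN
      · have e1 := hred N b hN1 h1 (fun l => (hbM l).trans hMN)
        have e2 : (fun l => min (b l) ⌈(N : ℝ) ^ θ⌉₊) = fun _ => ⌈(N : ℝ) ^ θ⌉₊ := by
          funext l
          exact min_eq_right (hρN.trans (hmb l))
        rw [e2] at e1
        have hNm' : (N : ℝ) ^ (-η) ≤ (m : ℝ) ^ (-η) :=
          Real.rpow_le_rpow_of_nonpos (by linarith) (by exact_mod_cast hNm) (by linarith)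
        have e3 : s * C1 * (N : ℝ) ^ (-η) ≤ s * C1 * (m : ℝ) ^ (-η) :=
          mul_le_mul_of_nonneg_left hNm' hsC
        have e4 : s * C1 * (M : ℝ) ^ (-η) ≤ s * C1 * (m : ℝ) ^ (-η) :=
          mul_le_mul_of_nonneg_left hMm hsC
        linarith
      · have hM0 : M0 ≤ M := hm0.trans hmM
        obtain ⟨hρlt, hρ2⟩ := hthr M hM0
        have hMθ : (m : ℝ) < (M : ℝ) ^ θ := by
          have e1 : (m : ℝ) ^ (1 / θ) < M := by
            have := Nat.lt_of_floor_lt (hN ▸ hMN)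
            exact_mod_cast this
          calc (m : ℝ) = ((m : ℝ) ^ (1 / θ)) ^ θ := by
                rw [← Real.rpow_mul (by positivity)]
                have : 1 / θ * θ = 1 := by field_simp
                rw [this, Real.rpow_one]
            _ < _ := Real.rpow_lt_rpow (by positivity) e1 hθ0
        have hmρ : m ≤ ⌈(M : ℝ) ^ θ⌉₊ := by
          have : (m : ℝ) ≤ ⌈(M : ℝ) ^ θ⌉₊ := hMθ.le.trans (Nat.le_ceil _)
          exact_mod_cast this
        have e1 := hred M b (hm1.trans hmM) h1 hbM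
        have e2 := ih _ hρlt hmρ (fun l => min (b l) ⌈(M : ℝ) ^ θ⌉₊)
          (fun l => le_min (hmb l) hmρ) (fun l => min_le_right _ _)
        have e3 : s * C1 * (2 * (M : ℝ) ^ (-η)) ≤ s * C1 * (⌈(M : ℝ) ^ θ⌉₊ : ℝ) ^ (-η) :=
          mul_le_mul_of_nonneg_left hρ2 hsC
        have e4 := abs_sub_le (R b) (R fun l => min (b l) ⌈(M : ℝ) ^ θ⌉₊)
          (R fun _ => ⌈(N : ℝ) ^ θ⌉₊)
        linarith
  have hosc : ∀ m : ℕ, 1 ≤ m → ∀ b b' : ι → ℕ, (∀ l, m ≤ b l) → (∀ l, m ≤ b' l) →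
      |R b - R b'| ≤ (4 * (s * C1) + T1 * (M0 : ℝ) ^ η) * (m : ℝ) ^ (-η) := by
    intro m hm1 b b' hb hb'
    have hmr : (1 : ℝ) ≤ m := by exact_mod_cast hm1
    have hmp : 0 < (m : ℝ) ^ (-η) := by positivity
    have hsC : 0 ≤ s * C1 := mul_nonneg hs0 hC10
    rcases lt_or_ge m M0 with hlt | hge
    · have e1 := hbd b (fun l => hm1.trans (hb l))
      have e2 := hbd b' (fun l => hm1.trans (hb' l))
      have e3 := hR0 b (fun l => hm1.trans (hb l))
      have e4 := hR0 b' (fun l => hm1.trans (hb' l))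
      have e5 : |R b - R b'| ≤ T1 := by
        rw [abs_le]; constructor <;> linarith
      have e6 : 1 ≤ (M0 : ℝ) ^ η * (m : ℝ) ^ (-η) := by
        rw [Real.rpow_neg (by linarith), ← div_eq_mul_inv, le_div_iff₀ (by positivity), one_mul]
        exact Real.rpow_le_rpow (by linarith) (by exact_mod_cast hlt.le) hη.le
      have e7 : T1 ≤ T1 * ((M0 : ℝ) ^ η * (m : ℝ) ^ (-η)) := by nlinarith
      have e8 : 0 ≤ 4 * (s * C1) * (m : ℝ) ^ (-η) := by positivity
      calc |R b - R b'| ≤ T1 := e5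
        _ ≤ _ := by rw [add_mul]; linarith
    · obtain ⟨ref, href⟩ := hosc1 m hge hm1
      have hM : ∀ l, b l ≤ ∑ l, b l := fun l => Finset.single_le_sum (fun _ _ => Nat.zero_le _)
        (mem_univ l)
      have hM' : ∀ l, b' l ≤ ∑ l, b' l := fun l => Finset.single_le_sum
        (fun _ _ => Nat.zero_le _) (mem_univ l)
      obtain ⟨l0⟩ := hne
      have e1 := href (∑ l, b l) ((hb l0).trans (hM l0)) b hb hM
      have e2 := href (∑ l, b' l) ((hb' l0).trans (hM' l0)) b' hb' hM'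
      have e3 : 0 ≤ s * C1 * ((∑ l, b l : ℕ) : ℝ) ^ (-η) := by positivity
      have e4 : 0 ≤ s * C1 * ((∑ l, b' l : ℕ) : ℝ) ^ (-η) := by positivity
      have e5 := abs_sub_le (R b) (R ref) (R b')
      rw [abs_sub_comm (R ref) (R b')] at e5
      have e6 : 0 ≤ T1 * (M0 : ℝ) ^ η * (m : ℝ) ^ (-η) := by positivity
      rw [add_mul]
      linarith
  -- the limit
  set C' : ℝ := 4 * (s * C1) + T1 * (M0 : ℝ) ^ η with hC'
  have hC'0 : 0 ≤ C' := by positivity
  set u : ℕ → ℝ := fun m => R (fun _ => m + 1) with hu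
  have hcau : CauchySeq u := by
    refine cauchySeq_of_le_tendsto_0 (fun N : ℕ => C' * ((N + 1 : ℕ) : ℝ) ^ (-η)) ?_ ?_
    · intro n m N hn hm
      rw [Real.dist_eq]
      exact hosc (N + 1) (Nat.le_add_left _ _) _ _ (fun _ => by omega) (fun _ => by omega)
    · have h1 : Tendsto (fun N : ℕ => ((N + 1 : ℕ) : ℝ) ^ (-η)) atTop (𝓝 0) := by
        have h2 := (tendsto_rpow_neg_atTop hη).comp
          (tendsto_natCast_atTop_atTop (R := ℝ))
        exact h2.comp (tendsto_add_atTop_nat 1)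
      simpa using h1.const_mul C'
  obtain ⟨R0, hR0'⟩ := cauchySeq_tendsto_of_complete hcau
  refine ⟨R0, ge_of_tendsto' hR0' (fun m => hR0 _ (fun _ => Nat.le_add_left _ _)), ?_⟩
  intro b m hm hb
  have hb1 : ∀ l, 1 ≤ b l := fun l => hm.trans (hb l)
  have hP := hPpos b hb1
  have e1 : |R b - R0| ≤ C' * (m : ℝ) ^ (-η) := by
    have h1 : Tendsto (fun k => |R b - u k|) atTop (𝓝 |R b - R0|) :=
      (tendsto_const_nhds.sub hR0').abs
    refine le_of_tendsto h1 ?_
    filter_upwards [eventually_ge_atTop m] with k hk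
    exact hosc m hm b _ hb (fun _ => by omega)
  have e2 : F b - R0 * ∏ l, (b l : ℝ) ^ E l = (R b - R0) * Pw E b := by
    have : F b = R b * Pw E b := by
      rw [hR]
      field_simp
    rw [this]
    unfold Pw
    ring
  rw [e2, abs_mul, abs_of_pos hP]
  exact mul_le_mul_of_nonneg_right e1 hP.le

end De

end Pool.Agent.Q227.EO
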