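import Mathlib

/-!
EO-HYP, part A: inclusion and exclusion for cells.
-/

set_option autoImplicit false

namespace Pool.Agent.Q227.EO

open Finset Function Filter Topology

section HypA

variable {ι : Type} [Fintype ι] [DecidableEq ι]

noncomputable def Bs (f : (ι → ℕ) → ℝ) (b : ι → ℕ) : ℝ :=
  ∑ h ∈ Fintype.piFinset fun l => Icc 1 (b l), f h

theorem incl_excl (f : (ι → ℕ) → ℝ) (a b : ι → ℕ) (hab : ∀ l, a l ≤ b l) :
    ∑ h ∈ Fintype.piFinset (fun l => Ioc (a l) (b l)), f h =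
      ∑ T ∈ (univ : Finset ι).powerset, (∏ _l ∈ univ \ T, (-1 : ℝ)) *
        Bs f (fun l => if l ∈ T then b l else a l) := by
  have h1 : ∀ h ∈ Fintype.piFinset (fun l => Icc 1 (b l)),
      (if h ∈ Fintype.piFinset (fun l => Ioc (a l) (b l)) then f h else 0) =
      ∑ T ∈ (univ : Finset ι).powerset, (∏ _l ∈ univ \ T, (-1 : ℝ)) *
        (if h ∈ Fintype.piFinset (fun l => Icc 1 (if l ∈ T then b l else a l)) then f h
          else 0) := by
    intro h hh
    have hh' : ∀ l, 1 ≤ h l ∧ h l ≤ b l := fun l => by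
      simpa using Fintype.mem_piFinset.1 hh l
    have e : ∏ l, ((1 : ℝ) + (if h l ≤ a l then -1 else 0)) =
        ∑ T ∈ (univ : Finset ι).powerset, (∏ _l ∈ T, (1 : ℝ)) *
          ∏ l ∈ univ \ T, (if h l ≤ a l then (-1 : ℝ) else 0) := Finset.prod_add _ _ _
    have e1 : (if h ∈ Fintype.piFinset (fun l => Ioc (a l) (b l)) then f h else 0) =
        f h * ∏ l, ((1 : ℝ) + (if h l ≤ a l then -1 else 0)) := by
      by_cases hc : ∀ l, ¬ h l ≤ a l
      · rw [if_pos (Fintype.mem_piFinset.2 fun l => mem_Ioc.2 ⟨not_le.1 (hc l), (hh' l).2⟩),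
          Finset.prod_eq_one (fun l _ => by rw [if_neg (hc l)]; norm_num), mul_one]
      · push Not at hc
        obtain ⟨l, hl⟩ := hc
        rw [if_neg, Finset.prod_eq_zero (mem_univ l) (by rw [if_pos hl]; norm_num), mul_zero]
        intro hm
        have := (mem_Ioc.1 (Fintype.mem_piFinset.1 hm l)).1
        omega
    rw [e1, e, mul_sum]
    refine sum_congr rfl fun T _ => ?_
    rw [prod_const_one, one_mul]
    by_cases hT : ∀ l ∈ univ \ T, h l ≤ a l
    · rw [if_pos, Finset.prod_congr rfl (fun l hl => if_pos (hT l hl)), mul_comm]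
      refine Fintype.mem_piFinset.2 fun l => mem_Icc.2 ⟨(hh' l).1, ?_⟩
      split_ifs with hl
      · exact (hh' l).2
      · exact hT l (by simp [hl])
    · push Not at hT
      obtain ⟨l, hl, hl2⟩ := hT
      rw [if_neg, Finset.prod_eq_zero hl (if_neg (not_le.2 hl2)), mul_zero, mul_zero]
      intro hm
      have := (mem_Icc.1 (Fintype.mem_piFinset.1 hm l)).2
      rw [if_neg (by simpa using hl)] at this
      omega
  have h2 : ∑ h ∈ Fintype.piFinset (fun l => Ioc (a l) (b l)), f h =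
      ∑ h ∈ Fintype.piFinset (fun l => Icc 1 (b l)),
        (if h ∈ Fintype.piFinset (fun l => Ioc (a l) (b l)) then f h else 0) := by
    rw [Finset.sum_ite_mem]
    congr 1
    refine (Finset.inter_eq_right.2 ?_).symm
    refine Fintype.piFinset_subset _ _ fun l => ?_
    intro x hx
    rw [mem_Ioc] at hx
    rw [mem_Icc]
    omega
  rw [h2, Finset.sum_congr rfl h1, Finset.sum_comm]
  refine sum_congr rfl fun T _ => ?_
  rw [← mul_sum]
  congr 1
  rw [Finset.sum_ite_mem]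
  unfold Bs
  congr 1
  refine Finset.inter_eq_right.2 ?_
  refine Fintype.piFinset_subset _ _ fun l => ?_
  intro x hx
  rw [mem_Icc] at hx ⊢
  have := hab l
  split_ifs at hx <;> omega

theorem prod_sub_exp (A B : ι → ℝ) :
    ∏ l, (B l - A l) = ∑ T ∈ (univ : Finset ι).powerset, (∏ _l ∈ univ \ T, (-1 : ℝ)) *
      ∏ l, (if l ∈ T then B l else A l) := by
  have e : ∏ l, (B l + (- A l)) = ∑ T ∈ (univ : Finset ι).powerset, (∏ l ∈ T, B l) *
      ∏ l ∈ univ \ T, (- A l) := Finset.prod_add _ _ _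
  simp only [sub_eq_add_neg]
  rw [e]
  refine sum_congr rfl fun T _ => ?_
  have e1 : ∏ l, (if l ∈ T then B l else A l) = (∏ l ∈ univ \ T, A l) * ∏ l ∈ T, B l := by
    rw [← Finset.prod_sdiff (Finset.subset_univ T)]
    congr 1
    · refine Finset.prod_congr rfl fun l hl => ?_
      rw [if_neg (by simpa using hl)]
    · refine Finset.prod_congr rfl fun l hl => ?_
      rw [if_pos hl]
  have e2 : ∏ l ∈ univ \ T, (- A l) = (∏ _l ∈ univ \ T, (-1 : ℝ)) * ∏ l ∈ univ \ T, A l := by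
    rw [← Finset.prod_mul_distrib]
    refine Finset.prod_congr rfl fun l _ => by ring
  rw [e1, e2]
  ring

variable [Nonempty ι]

/-- Bound for the corners. -/
theorem corner (f : (ι → ℕ) → ℝ) (r : ι → ℕ) (R η C : ℝ) (hr : ∀ l, 1 ≤ r l) (hη : 0 < η)
    (hC : 0 ≤ C)
    (H : ∀ (b : ι → ℕ) (m : ℕ), 1 ≤ m → (∀ l, m ≤ b l) →
      |∑ h ∈ Fintype.piFinset fun l => Icc 1 (b l), f h - R * ∏ l, (b l : ℝ) ^ r l| ≤
        C * (m : ℝ) ^ (-η) * ∏ l, (b l : ℝ) ^ r l)
    (a b c : ι → ℕ) (hac : ∀ l, a l ≤ c l) (hcb : ∀ l, c l ≤ b l) :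
    |Bs f c - R * ∏ l, (c l : ℝ) ^ r l| ≤
      C * (∑ l, ((max 1 (a l) : ℕ) : ℝ) ^ (-η)) * ∏ l, (b l : ℝ) ^ r l := by
  have hnn : 0 ≤ C * (∑ l, ((max 1 (a l) : ℕ) : ℝ) ^ (-η)) * ∏ l, (b l : ℝ) ^ r l := by
    positivity
  by_cases h0 : ∃ l, c l = 0
  · obtain ⟨l, hl⟩ := h0
    have e1 : Bs f c = 0 := by
      unfold Bs
      have : Fintype.piFinset (fun l => Icc 1 (c l)) = ∅ := by
        refine Finset.eq_empty_of_forall_notMem fun h hh => ?_
        have := mem_Icc.1 (Fintype.mem_piFinset.1 hh l)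
        omega
      rw [this, sum_empty]
    have e2 : ∏ l, (c l : ℝ) ^ r l = 0 := by
      refine Finset.prod_eq_zero (mem_univ l) ?_
      rw [hl]
      have := hr l
      simp
      omega
    rw [e1, e2]
    simpa using hnn
  · push Not at h0
    have hc1 : ∀ l, 1 ≤ c l := fun l => Nat.one_le_iff_ne_zero.2 (h0 l)
    obtain ⟨l0, -, hl0⟩ := Finset.exists_min_image (univ : Finset ι) c ⟨Classical.arbitrary ι,
      mem_univ _⟩
    have e1 := H c (c l0) (hc1 l0) (fun l => hl0 l (mem_univ l))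
    refine e1.trans ?_
    have hcl : ((c l0 : ℕ) : ℝ) ^ (-η) ≤ ∑ l, ((max 1 (a l) : ℕ) : ℝ) ^ (-η) := by
      refine le_trans ?_ (Finset.single_le_sum
        (f := fun l => ((max 1 (a l) : ℕ) : ℝ) ^ (-η)) (fun l _ => by positivity) (mem_univ l0))
      refine Real.rpow_le_rpow_of_nonpos (by positivity) ?_ (by linarith)
      exact_mod_cast max_le (hc1 l0) (hac l0)
    have hprod : ∏ l, (c l : ℝ) ^ r l ≤ ∏ l, (b l : ℝ) ^ r l := by
      refine Finset.prod_le_prod (fun l _ => by positivity) fun l _ => ?_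
      exact pow_le_pow_left₀ (by positivity) (by exact_mod_cast hcb l) _
    have h3 : 0 ≤ ∑ l, ((max 1 (a l) : ℕ) : ℝ) ^ (-η) := by positivity
    have h4 : (0 : ℝ) ≤ ∏ l, (c l : ℝ) ^ r l := by positivity
    exact mul_le_mul (mul_le_mul_of_nonneg_left hcl hC) hprod h4 (mul_nonneg hC h3)

/-- The sum over a cell. -/
theorem cell_est (f : (ι → ℕ) → ℝ) (r : ι → ℕ) (R η C : ℝ) (hr : ∀ l, 1 ≤ r l) (hη : 0 < η)
    (hC : 0 ≤ C)
    (H : ∀ (b : ι → ℕ) (m : ℕ), 1 ≤ m → (∀ l, m ≤ b l) →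
      |∑ h ∈ Fintype.piFinset fun l => Icc 1 (b l), f h - R * ∏ l, (b l : ℝ) ^ r l| ≤
        C * (m : ℝ) ^ (-η) * ∏ l, (b l : ℝ) ^ r l)
    (a b : ι → ℕ) (hab : ∀ l, a l ≤ b l) :
    |∑ h ∈ Fintype.piFinset (fun l => Ioc (a l) (b l)), f h -
        R * ∏ l, ((b l : ℝ) ^ r l - (a l : ℝ) ^ r l)| ≤
      (2 : ℝ) ^ Fintype.card ι *
        (C * (∑ l, ((max 1 (a l) : ℕ) : ℝ) ^ (-η)) * ∏ l, (b l : ℝ) ^ r l) := by
  rw [incl_excl f a b hab, prod_sub_exp, mul_sum, ← Finset.sum_sub_distrib]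
  refine (Finset.abs_sum_le_sum_abs _ _).trans ?_
  have hb : ∀ T ∈ (univ : Finset ι).powerset,
      |(∏ _l ∈ univ \ T, (-1 : ℝ)) * Bs f (fun l => if l ∈ T then b l else a l) -
        R * ((∏ _l ∈ univ \ T, (-1 : ℝ)) *
          ∏ l, (if l ∈ T then (b l : ℝ) ^ r l else (a l : ℝ) ^ r l))| ≤
      C * (∑ l, ((max 1 (a l) : ℕ) : ℝ) ^ (-η)) * ∏ l, (b l : ℝ) ^ r l := by
    intro T _
    have e1 : (∏ _l ∈ univ \ T, (-1 : ℝ)) * Bs f (fun l => if l ∈ T then b l else a l) -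
        R * ((∏ _l ∈ univ \ T, (-1 : ℝ)) *
          ∏ l, (if l ∈ T then (b l : ℝ) ^ r l else (a l : ℝ) ^ r l)) =
        (∏ _l ∈ univ \ T, (-1 : ℝ)) * (Bs f (fun l => if l ∈ T then b l else a l) -
          R * ∏ l, (((fun l => if l ∈ T then b l else a l) l : ℕ) : ℝ) ^ r l) := by
      have : ∏ l, (if l ∈ T then (b l : ℝ) ^ r l else (a l : ℝ) ^ r l) =
          ∏ l, (((fun l => if l ∈ T then b l else a l) l : ℕ) : ℝ) ^ r l := by
        refine Finset.prod_congr rfl fun l _ => ?_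
        dsimp only
        split_ifs <;> rfl
      rw [this]
      ring
    rw [e1, abs_mul]
    have e2 : |∏ _l ∈ univ \ T, (-1 : ℝ)| = 1 := by
      rw [Finset.abs_prod]
      simp
    rw [e2, one_mul]
    refine corner f r R η C hr hη hC H a b _ (fun l => ?_) (fun l => ?_)
    · split_ifs
      · exact hab l
      · exact le_rfl
    · split_ifs
      · exact le_rfl
      · exact hab l
  refine (Finset.sum_le_sum hb).trans ?_
  rw [Finset.sum_const, Finset.card_powerset, Finset.card_univ, nsmul_eq_mul]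
  push_cast
  exact le_rfl

end HypA

end Pool.Agent.Q227.EO
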