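import Mathlib

/-!
EO-HYP, part B: convolutions and asymptotics.
-/

set_option autoImplicit false

namespace Pool.Agent.Q227.EO

open Finset Function Filter Topology

/-- The number of the tuples of length `a + 1` with sum `n`. -/
noncomputable def wt (a n : ℕ) : ℝ := (((n + a).choose a : ℕ) : ℝ)

theorem wt_pos (a n : ℕ) : 0 < wt a n := by
  unfold wt
  exact_mod_cast Nat.choose_pos (Nat.le_add_left a n)

theorem wt_zero (n : ℕ) : wt 0 n = 1 := by simp [wt]

theorem wt_succ_left (a n : ℕ) : wt (a + 1) n * (a + 1) = wt a n * (n + a + 1) := by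
  unfold wt
  have h := Nat.add_one_mul_choose_eq (n + a) a
  have : n + (a + 1) = n + a + 1 := by ring
  rw [this]
  have h2 : (((n + a + 1 : ℕ) : ℝ)) * ((n + a).choose a : ℕ) =
      ((n + a + 1).choose (a + 1) : ℕ) * ((a + 1 : ℕ) : ℝ) := by exact_mod_cast h
  push_cast at h2
  linarith

theorem wt_succ_right (a n : ℕ) : wt (a + 1) (n + 1) = wt (a + 1) n + wt a (n + 1) := by
  unfold wt
  have h : (n + 1 + (a + 1)).choose (a + 1) = (n + 1 + a).choose a + (n + 1 + a).choose (a + 1) := by
    have : n + 1 + (a + 1) = (n + 1 + a) + 1 := by ring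
    rw [this, Nat.choose_succ_succ]
  have h2 : n + 1 + a = n + (a + 1) := by ring
  rw [h]
  push_cast
  rw [h2]
  ring

theorem sum_wt (a n : ℕ) : ∑ i ∈ range (n + 1), wt a i = wt (a + 1) n := by
  induction n with
  | zero => simp [wt]
  | succ n ih => rw [Finset.sum_range_succ, ih, wt_succ_right]

theorem wt_mono (a : ℕ) {m n : ℕ} (h : m ≤ n) : wt a m ≤ wt a n := by
  unfold wt
  exact_mod_cast Nat.choose_le_choose a (by omega)

theorem tendsto_lin (a : ℕ) : Tendsto (fun n : ℕ => ((n : ℝ) + a + 1) / n) atTop (𝓝 1) := by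
  have h : Tendsto (fun n : ℕ => 1 + ((a : ℝ) + 1) / n) atTop (𝓝 (1 + 0)) :=
    tendsto_const_nhds.add (tendsto_const_div_atTop_nhds_zero_nat _)
  rw [add_zero] at h
  refine h.congr' ?_
  filter_upwards [eventually_ge_atTop 1] with n hn
  have : (n : ℝ) ≠ 0 := by positivity
  field_simp
  ring

theorem wt_asym (a : ℕ) :
    Tendsto (fun n : ℕ => wt a n / (n : ℝ) ^ a) atTop (𝓝 (1 / (a.factorial : ℝ))) := by
  induction a with
  | zero => simp [wt_zero]
  | succ a ih =>
    have h := (ih.mul (tendsto_lin a)).mul_const (1 / ((a : ℝ) + 1))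
    rw [mul_one] at h
    have e : 1 / (a.factorial : ℝ) * (1 / ((a : ℝ) + 1)) = 1 / (((a + 1).factorial : ℕ) : ℝ) := by
      rw [Nat.factorial_succ]
      push_cast
      have : (a.factorial : ℝ) ≠ 0 := by positivity
      field_simp
    rw [e] at h
    refine h.congr' ?_
    filter_upwards [eventually_ge_atTop 1] with n hn
    have h1 : (n : ℝ) ≠ 0 := by positivity
    have h2 := wt_succ_left a n
    have h3 : (a : ℝ) + 1 ≠ 0 := by positivity
    have h4 : wt (a + 1) n = wt a n * (n + a + 1) / (a + 1) := by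
      field_simp
      linarith
    rw [h4, pow_succ]
    field_simp

theorem wt_ratio (a : ℕ) : Tendsto (fun n : ℕ => wt a (n + 1) / wt a n) atTop (𝓝 1) := by
  have h1 := (wt_asym a).comp (tendsto_add_atTop_nat 1)
  have h2 := h1.div (wt_asym a) (by positivity)
  have h3 : Tendsto (fun n : ℕ => (((n : ℝ) + 1) / n) ^ a) atTop (𝓝 (1 ^ a)) := by
    have := tendsto_lin 0
    simp only [Nat.cast_zero, add_zero] at this
    exact this.pow a
  have h4 := h2.mul h3
  have e : 1 / (a.factorial : ℝ) / (1 / (a.factorial : ℝ)) * 1 ^ a = 1 := by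
    rw [one_pow, mul_one, div_self (by positivity)]
  rw [e] at h4
  refine h4.congr' ?_
  filter_upwards [eventually_ge_atTop 1] with n hn
  have hn1 : (n : ℝ) ≠ 0 := by positivity
  have hn2 : (n : ℝ) + 1 ≠ 0 := by positivity
  have hw := (wt_pos a n).ne'
  simp only [Function.comp, Pi.div_apply]
  push_cast
  rw [div_pow]
  field_simp

theorem tendsto_wt_atTop (a : ℕ) : Tendsto (fun n : ℕ => wt (a + 1) n) atTop atTop := by
  have h : ∀ n : ℕ, (n : ℝ) ≤ wt (a + 1) n := by
    intro n
    rw [← sum_wt]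
    have h1 : ∀ i ∈ range (n + 1), (1 : ℝ) ≤ wt a i := by
      intro i _
      unfold wt
      exact_mod_cast Nat.choose_pos (Nat.le_add_left a i)
    have := Finset.sum_le_sum h1
    simp only [sum_const, card_range, nsmul_eq_mul, mul_one] at this
    push_cast at this
    linarith
  exact tendsto_atTop_mono h tendsto_natCast_atTop_atTop

/-- Summation of an asymptotic formula. -/
theorem sum_asym (x g : ℕ → ℝ) (X : ℝ) (hg : ∀ n, 0 < g n)
    (hgt : Tendsto (fun n => ∑ i ∈ range n, g i) atTop atTop)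
    (hx : Tendsto (fun n => x n / g n) atTop (𝓝 X)) :
    Tendsto (fun n => (∑ i ∈ range (n + 1), x i) / ∑ i ∈ range (n + 1), g i) atTop (𝓝 X) := by
  have h1 : (fun n => x n - X * g n) =o[atTop] g := by
    rw [Asymptotics.isLittleO_iff_tendsto (fun n hn => absurd hn (hg n).ne')]
    have h2 : Tendsto (fun n => x n / g n - X) atTop (𝓝 0) := by
      have := hx.sub_const X
      rwa [sub_self] at this
    refine h2.congr fun n => ?_
    have := (hg n).ne'
    field_simp
  have h3 := h1.sum_range (fun n => (hg n).le) hgt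
  have h4 := h3.tendsto_div_nhds_zero.comp (tendsto_add_atTop_nat 1)
  have h5 := h4.add_const X
  rw [zero_add] at h5
  refine h5.congr fun n => ?_
  simp only [Function.comp]
  rw [Finset.sum_sub_distrib, ← mul_sum]
  have hpos : 0 < ∑ i ∈ range (n + 1), g i :=
    Finset.sum_pos (fun i _ => hg i) ⟨0, by simp⟩
  have := hpos.ne'
  field_simp
  ring

/-- The convolution lemma. -/
theorem conv_asym (a : ℕ) (x y : ℕ → ℝ) (X Y : ℝ)
    (hx : Tendsto (fun n => x n / wt a n) atTop (𝓝 X)) (hy : Tendsto y atTop (𝓝 Y)) :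
    Tendsto (fun n => (∑ p ∈ antidiagonal n, y p.1 * x p.2) / wt (a + 1) n) atTop
      (𝓝 (Y * X)) := by
  have hgt : Tendsto (fun n => ∑ i ∈ range n, wt a i) atTop atTop := by
    have : Tendsto (fun n => ∑ i ∈ range (n + 1), wt a i) atTop atTop := by
      simp only [sum_wt]
      exact tendsto_wt_atTop a
    exact (tendsto_add_atTop_iff_nat 1).1 this
  have h1 := sum_asym x (wt a) X (wt_pos a) hgt hx
  simp only [sum_wt] at h1
  -- bound for x
  obtain ⟨K, hK⟩ : ∃ K : ℝ, ∀ n, |x n / wt a n| ≤ K := by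
    have := hx.norm.bddAbove_range
    obtain ⟨K, hK⟩ := this
    exact ⟨K, fun n => hK ⟨n, rfl⟩⟩
  have hK0 : 0 ≤ K := (abs_nonneg _).trans (hK 0)
  have hxb : ∀ n, |x n| ≤ K * wt a n := by
    intro n
    have := hK n
    rwa [abs_div, abs_of_pos (wt_pos a n), div_le_iff₀ (wt_pos a n)] at this
  -- Cesaro
  have h2 : Tendsto (fun n : ℕ => (n : ℝ)⁻¹ * ∑ i ∈ range n, |y i - Y|) atTop (𝓝 0) := by
    refine Filter.Tendsto.cesaro ?_
    have := (hy.sub_const Y).abs
    rwa [sub_self, abs_zero] at this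
  have h3 := h2.comp (tendsto_add_atTop_nat 1)
  have h4 : Tendsto (fun n : ℕ => (∑ p ∈ antidiagonal n, (y p.1 - Y) * x p.2) / wt (a + 1) n)
      atTop (𝓝 0) := by
    refine squeeze_zero_norm (a := fun n : ℕ => K * (a + 1) *
      ((((n + 1 : ℕ) : ℝ))⁻¹ * ∑ i ∈ range (n + 1), |y i - Y|)) (fun n => ?_) ?_
    · rw [Real.norm_eq_abs, abs_div, abs_of_pos (wt_pos (a + 1) n), div_le_iff₀ (wt_pos _ _)]
      refine (Finset.abs_sum_le_sum_abs _ _).trans ?_
      have e1 : ∀ p ∈ antidiagonal n, |(y p.1 - Y) * x p.2| ≤ |y p.1 - Y| * (K * wt a n) := by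
        intro p hp
        rw [abs_mul]
        refine mul_le_mul_of_nonneg_left ((hxb _).trans ?_) (abs_nonneg _)
        refine mul_le_mul_of_nonneg_left (wt_mono a ?_) hK0
        have := mem_antidiagonal.1 hp
        omega
      refine (Finset.sum_le_sum e1).trans ?_
      rw [← Finset.sum_mul]
      have e2 : ∑ p ∈ antidiagonal n, |y p.1 - Y| = ∑ i ∈ range (n + 1), |y i - Y| :=
        Finset.Nat.sum_antidiagonal_eq_sum_range_succ (fun i _ => |y i - Y|) n
      rw [e2]
      set S := ∑ i ∈ range (n + 1), |y i - Y| with hS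
      have hS0 : 0 ≤ S := Finset.sum_nonneg fun i _ => abs_nonneg _
      have e3 : wt a n * (n + 1) ≤ (a + 1) * wt (a + 1) n := by
        have h5 := wt_succ_left a n
        have h6 := (wt_pos a n).le
        have h7 : 0 ≤ wt a n * a := mul_nonneg h6 (by positivity)
        nlinarith
      have e4 : wt a n ≤ (a + 1) * (((n + 1 : ℕ) : ℝ))⁻¹ * wt (a + 1) n := by
        push_cast
        have hn : (0 : ℝ) < (n : ℝ) + 1 := by positivity
        rw [mul_assoc, mul_comm ((n : ℝ) + 1)⁻¹, ← mul_assoc, ← div_eq_mul_inv, le_div_iff₀ hn]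
        exact e3
      calc S * (K * wt a n) = (S * K) * wt a n := by ring
        _ ≤ (S * K) * ((a + 1) * (((n + 1 : ℕ) : ℝ))⁻¹ * wt (a + 1) n) :=
            mul_le_mul_of_nonneg_left e4 (mul_nonneg hS0 hK0)
        _ = _ := by ring
    · have := h3.const_mul (K * (a + 1))
      rw [mul_zero] at this
      exact this
  have h5 := h4.add (h1.const_mul Y)
  rw [zero_add] at h5
  refine h5.congr fun n => ?_
  have e2 : ∑ p ∈ antidiagonal n, x p.2 = ∑ i ∈ range (n + 1), x i := by
    rw [← Finset.Nat.sum_antidiagonal_swap]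
    exact Finset.Nat.sum_antidiagonal_eq_sum_range_succ (fun i _ => x i) n
  have e3 : ∑ p ∈ antidiagonal n, y p.1 * x p.2 =
      ∑ p ∈ antidiagonal n, (y p.1 - Y) * x p.2 + Y * ∑ p ∈ antidiagonal n, x p.2 := by
    rw [mul_sum, ← Finset.sum_add_distrib]
    exact Finset.sum_congr rfl fun p _ => by ring
  rw [e3, e2]
  ring

section

variable {ι : Type} [DecidableEq ι]

/-- The convolution of the sequences `u l`, `l ∈ T`. -/
noncomputable def Cv (T : Finset ι) (u : ι → ℕ → ℝ) (n : ℕ) : ℝ :=
  ∑ j ∈ piAntidiag T n, ∏ l ∈ T, u l (j l)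

theorem Cv_cons (T : Finset ι) (i : ι) (hi : i ∉ T) (u : ι → ℕ → ℝ) (n : ℕ) :
    Cv (cons i T hi) u n = ∑ p ∈ antidiagonal n, u i p.1 * Cv T u p.2 := by
  unfold Cv
  rw [Finset.piAntidiag_cons hi, Finset.sum_disjiUnion]
  refine Finset.sum_congr rfl fun p _ => ?_
  rw [Finset.sum_map, mul_sum]
  refine Finset.sum_congr rfl fun j hj => ?_
  rw [Finset.mem_piAntidiag] at hj
  have hji : j i = 0 := by
    by_contra h
    exact hi (hj.2 i h)
  rw [Finset.prod_cons]
  congr 1
  · simp [addRightEmbedding, hji]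
  · refine Finset.prod_congr rfl fun l hl => ?_
    have : l ≠ i := fun h => hi (h ▸ hl)
    simp [addRightEmbedding, this]

theorem Cv_singleton (i : ι) (u : ι → ℕ → ℝ) (n : ℕ) : Cv {i} u n = u i n := by
  unfold Cv
  have : piAntidiag {i} n = {fun l => if l = i then n else 0} := by
    ext j
    rw [Finset.mem_piAntidiag, mem_singleton]
    constructor
    · rintro ⟨h1, h2⟩
      funext l
      rw [sum_singleton] at h1
      by_cases hl : l = i
      · subst hl; simp [h1]
      · rw [if_neg hl]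
        by_contra h
        exact hl (mem_singleton.1 (h2 l h))
    · rintro rfl
      constructor
      · simp
      · intro l hl
        by_contra h
        rw [mem_singleton] at h
        simp [h] at hl
  rw [this]
  simp

theorem Cv_asym (u : ι → ℕ → ℝ) (v : ι → ℝ) (hu : ∀ l, Tendsto (u l) atTop (𝓝 (v l)))
    (T : Finset ι) (hT : T.Nonempty) :
    Tendsto (fun n => Cv T u n / wt (T.card - 1) n) atTop (𝓝 (∏ l ∈ T, v l)) := by
  induction hT using Finset.Nonempty.cons_induction with
  | singleton i =>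
    simp only [Cv_singleton, card_singleton, Nat.sub_self, wt_zero, div_one, prod_singleton]
    exact hu i
  | cons i T hi hT ih =>
    have h := conv_asym (T.card - 1) (Cv T u) (u i) _ _ ih (hu i)
    have hc : (cons i T hi).card - 1 = T.card - 1 + 1 := by
      rw [card_cons]
      have := hT.card_pos
      omega
    rw [hc, prod_cons]
    refine h.congr fun n => ?_
    rw [Cv_cons]

end

/-- Summation with geometric weights. -/
theorem geo_asym (a : ℕ) (q : ℝ) (hq : 1 < q) (t : ℕ → ℝ) (X : ℝ)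
    (ht : Tendsto (fun n => t n / wt a n) atTop (𝓝 X)) :
    Tendsto (fun n : ℕ => (∑ i ∈ range (n + 1), q ^ i * t i) / (q ^ n * (n : ℝ) ^ a)) atTop
      (𝓝 (X * (q / (q - 1)) / a.factorial)) := by
  have hq0 : 0 < q := by linarith
  set g : ℕ → ℝ := fun n => q ^ n * wt a n with hg
  have hgpos : ∀ n, 0 < g n := fun n => mul_pos (pow_pos hq0 n) (wt_pos a n)
  have hgt : Tendsto (fun n => ∑ i ∈ range n, g i) atTop atTop := by
    have h1 : ∀ n : ℕ, (n : ℝ) ≤ ∑ i ∈ range n, g i := by
      intro n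
      have h2 : ∀ i ∈ range n, (1 : ℝ) ≤ g i := by
        intro i _
        have h3 : (1 : ℝ) ≤ wt a i := by
          unfold wt
          exact_mod_cast Nat.choose_pos (Nat.le_add_left a i)
        have h4 : (1 : ℝ) ≤ q ^ i := one_le_pow₀ hq.le
        exact one_le_mul_of_one_le_of_one_le h4 h3
      have := Finset.sum_le_sum h2
      simpa using this
    exact tendsto_atTop_mono h1 tendsto_natCast_atTop_atTop
  have h1 := sum_asym (fun n => q ^ n * t n) g X hgpos hgt (by
    refine ht.congr fun n => ?_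
    rw [hg]
    have := (pow_pos hq0 n).ne'
    have := (wt_pos a n).ne'
    field_simp)
  have h2 := sum_asym (fun n => g (n + 1) - g n) g (q - 1) hgpos hgt (by
    have h3 := ((wt_ratio a).const_mul q).sub_const 1
    rw [mul_one] at h3
    refine h3.congr fun n => ?_
    rw [hg]
    have := (pow_pos hq0 n).ne'
    have := (wt_pos a n).ne'
    field_simp
    ring)
  have h4 : Tendsto (fun n => (∑ i ∈ range (n + 1), g i) / g n) atTop (𝓝 (q / (q - 1))) := by
    -- sum (g (i+1) - g i) = g (n+1) - g 0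
    have e1 : ∀ n : ℕ, ∑ i ∈ range (n + 1), (g (i + 1) - g i) = g (n + 1) - g 0 := fun n =>
      Finset.sum_range_sub g (n + 1)
    simp only [e1] at h2
    -- g n / sum
    have h5 : Tendsto (fun n => g 0 / ∑ i ∈ range (n + 1), g i) atTop (𝓝 0) :=
      tendsto_const_nhds.div_atTop (hgt.comp (tendsto_add_atTop_nat 1))
    have h6 := h2.add h5
    rw [add_zero] at h6
    have h7 : Tendsto (fun n => g (n + 1) / g n) atTop (𝓝 q) := by
      have h3 := (wt_ratio a).const_mul q
      rw [mul_one] at h3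
      refine h3.congr fun n => ?_
      rw [hg]
      have := (pow_pos hq0 n).ne'
      have := (wt_pos a n).ne'
      field_simp
      ring
    have h8 := h7.div h6 (by linarith)
    refine h8.congr fun n => ?_
    have hs : (∑ i ∈ range (n + 1), g i) ≠ 0 :=
      (Finset.sum_pos (fun i _ => hgpos i) ⟨0, by simp⟩).ne'
    have ha := (hgpos n).ne'
    have hb := (hgpos (n + 1)).ne'
    simp only [Pi.div_apply]
    have e2 : (g (n + 1) - g 0) / ∑ i ∈ range (n + 1), g i + g 0 / ∑ i ∈ range (n + 1), g i =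
        g (n + 1) / ∑ i ∈ range (n + 1), g i := by ring
    rw [e2]
    field_simp
  have h9 := (h1.mul h4).mul (wt_asym a)
  have e : X * (q / (q - 1)) * (1 / (a.factorial : ℝ)) = X * (q / (q - 1)) / a.factorial := by
    ring
  rw [e] at h9
  refine h9.congr' ?_
  filter_upwards [eventually_ge_atTop 1] with n hn
  have hs : (∑ i ∈ range (n + 1), g i) ≠ 0 :=
    (Finset.sum_pos (fun i _ => hgpos i) ⟨0, by simp⟩).ne'
  have h10 : g n = q ^ n * wt a n := rfl
  rw [h10]
  have := (pow_pos hq0 n).ne'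
  have := (wt_pos a n).ne'
  have : (n : ℝ) ≠ 0 := by positivity
  field_simp

end Pool.Agent.Q227.EO
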