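import Mathlib

/-!
EO-HYP, part C: the break points.
-/

set_option autoImplicit false

namespace Pool.Agent.Q227.EO

open Finset Function Filter Topology

/-- The break points. -/
noncomputable def bet (q : ℝ) (r : ℕ) : ℕ → ℕ
  | 0 => 0
  | j + 1 => ⌊q ^ ((j : ℝ) / r)⌋₊

section
variable (q : ℝ) (hq : 1 < q) (r : ℕ) (hr : 1 ≤ r)

include hq

theorem bet_le_succ (j : ℕ) : bet q r j ≤ bet q r (j + 1) := by
  cases j with
  | zero => exact Nat.zero_le _
  | succ j =>
    refine Nat.floor_le_floor ?_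
    refine Real.rpow_le_rpow_of_exponent_le hq.le ?_
    push_cast
    gcongr
    linarith

theorem bet_mono : Monotone (bet q r) := monotone_nat_of_le_succ (bet_le_succ q hq r)

include hr

theorem pow_rpow (x : ℝ) : (q ^ (x / r)) ^ r = q ^ x := by
  have hr0 : (r : ℝ) ≠ 0 := by positivity
  rw [← Real.rpow_natCast, ← Real.rpow_mul (by linarith)]
  congr 1
  field_simp

theorem bet_pow_le (j : ℕ) : ((bet q r (j + 1) : ℕ) : ℝ) ^ r ≤ q ^ j := by
  have h1 : ((bet q r (j + 1) : ℕ) : ℝ) ≤ q ^ ((j : ℝ) / r) :=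
    Nat.floor_le (Real.rpow_nonneg (by linarith) _)
  calc ((bet q r (j + 1) : ℕ) : ℝ) ^ r ≤ (q ^ ((j : ℝ) / r)) ^ r :=
        pow_le_pow_left₀ (by positivity) h1 _
    _ = q ^ j := by rw [pow_rpow q hq r hr, Real.rpow_natCast]

theorem lt_pow_of_bet_lt (j h : ℕ) (hh : bet q r j < h) : q ^ j ≤ q * (h : ℝ) ^ r := by
  have h1 : (1 : ℝ) ≤ h := by
    have : 1 ≤ h := by omega
    exact_mod_cast this
  cases j with
  | zero =>
    rw [pow_zero]
    have : (1 : ℝ) ≤ (h : ℝ) ^ r := one_le_pow₀ h1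
    nlinarith
  | succ j =>
    have h2 : q ^ ((j : ℝ) / r) < h := Nat.lt_of_floor_lt hh
    have h3 : q ^ j ≤ (h : ℝ) ^ r := by
      calc q ^ j = (q ^ ((j : ℝ) / r)) ^ r := by rw [pow_rpow q hq r hr, Real.rpow_natCast]
        _ ≤ _ := pow_le_pow_left₀ (Real.rpow_nonneg (by linarith) _) h2.le _
    rw [pow_succ, mul_comm]
    exact mul_le_mul_of_nonneg_left h3 (by linarith)

theorem exists_bet (h : ℕ) (hh : 1 ≤ h) : ∃ j, bet q r j < h ∧ h ≤ bet q r (j + 1) := by
  have hex : ∃ j, h ≤ bet q r (j + 1) := by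
    have hr0 : (0 : ℝ) < r := by positivity
    have h1 : Tendsto (fun j : ℕ => q ^ ((j : ℝ) / r)) atTop atTop := by
      have h2 : Tendsto (fun j : ℕ => (j : ℝ) / r) atTop atTop :=
        (tendsto_natCast_atTop_atTop).atTop_div_const hr0
      exact (tendsto_rpow_atTop_of_base_gt_one q hq).comp h2
    obtain ⟨j, hj⟩ := (h1.eventually_ge_atTop (h : ℝ)).exists
    exact ⟨j, Nat.le_floor hj⟩
  classical
  refine ⟨Nat.find hex, ?_, Nat.find_spec hex⟩
  rcases Nat.eq_zero_or_pos (Nat.find hex) with h0 | h0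
  · rw [h0]
    exact hh
  · obtain ⟨k, hk⟩ := Nat.exists_eq_succ_of_ne_zero h0.ne'
    have := Nat.find_min hex (m := k) (by omega)
    rw [hk]
    exact not_le.1 this

omit hr in
theorem bet_unique (h j j' : ℕ) (h1 : bet q r j < h) (h2 : h ≤ bet q r (j + 1))
    (h3 : bet q r j' < h) (h4 : h ≤ bet q r (j' + 1)) : j = j' := by
  rcases lt_trichotomy j j' with hlt | heq | hgt
  · have := bet_mono q hq r (show j + 1 ≤ j' by omega)
    omega
  · exact heq
  · have := bet_mono q hq r (show j' + 1 ≤ j by omega)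
    omega

theorem bet_err (η : ℝ) (hη : 0 < η) (j : ℕ) :
    ((max 1 (bet q r j) : ℕ) : ℝ) ^ (-η) ≤ (2 * q) ^ η * (q ^ (-(η / r))) ^ j := by
  have hq0 : 0 < q := by linarith
  have hr0 : (0 : ℝ) < r := by positivity
  have hr1 : (1 : ℝ) ≤ r := by exact_mod_cast hr
  cases j with
  | zero =>
    simp only [bet, pow_zero, mul_one]
    norm_num
    exact Real.one_le_rpow (by linarith) hη.le
  | succ j =>
    have h1 : (1 : ℝ) ≤ q ^ ((j : ℝ) / r) := Real.one_le_rpow hq.le (by positivity)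
    have h2 : q ^ ((j : ℝ) / r) / 2 ≤ ((max 1 (bet q r (j + 1)) : ℕ) : ℝ) := by
      have h3 : q ^ ((j : ℝ) / r) < ((bet q r (j + 1) : ℕ) : ℝ) + 1 := Nat.lt_floor_add_one _
      have h4 : ((bet q r (j + 1) : ℕ) : ℝ) ≤ ((max 1 (bet q r (j + 1)) : ℕ) : ℝ) := by
        exact_mod_cast le_max_right _ _
      have h5 : (1 : ℝ) ≤ ((max 1 (bet q r (j + 1)) : ℕ) : ℝ) := by
        exact_mod_cast le_max_left _ _
      linarith
    have h3 : ((max 1 (bet q r (j + 1)) : ℕ) : ℝ) ^ (-η) ≤ (q ^ ((j : ℝ) / r) / 2) ^ (-η) :=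
      Real.rpow_le_rpow_of_nonpos (by positivity) h2 (by linarith)
    refine h3.trans ?_
    have h4 : (q ^ ((j : ℝ) / r) / 2) ^ (-η) = 2 ^ η * (q ^ (-(η / r))) ^ j := by
      rw [Real.div_rpow (by positivity) (by norm_num), ← Real.rpow_mul hq0.le,
        Real.rpow_neg (by norm_num : (0 : ℝ) ≤ 2), div_inv_eq_mul, ← Real.rpow_natCast,
        ← Real.rpow_mul hq0.le, mul_comm]
      congr 2
      field_simp
    rw [h4, pow_succ, Real.mul_rpow (by norm_num) hq0.le]
    have h5 : 1 ≤ q ^ η * q ^ (-(η / r)) := by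
      rw [← Real.rpow_add hq0]
      refine Real.one_le_rpow hq.le ?_
      have : η / r ≤ η := div_le_self hη.le hr1
      linarith
    have h6 : 0 ≤ 2 ^ η * (q ^ (-(η / r))) ^ j := by positivity
    calc 2 ^ η * (q ^ (-(η / r))) ^ j = (2 ^ η * (q ^ (-(η / r))) ^ j) * 1 := by ring
      _ ≤ (2 ^ η * (q ^ (-(η / r))) ^ j) * (q ^ η * q ^ (-(η / r))) :=
          mul_le_mul_of_nonneg_left h5 h6
      _ = _ := by ring

/-- The main term. -/
theorem bet_main : Tendsto (fun j : ℕ =>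
    (((bet q r (j + 1) : ℕ) : ℝ) ^ r - ((bet q r j : ℕ) : ℝ) ^ r) / q ^ j) atTop
      (𝓝 (1 - 1 / q)) := by
  have hq0 : 0 < q := by linarith
  have hr0 : (0 : ℝ) < r := by positivity
  have h1 : Tendsto (fun j : ℕ => q ^ ((j : ℝ) / r)) atTop atTop := by
    have h2 : Tendsto (fun j : ℕ => (j : ℝ) / r) atTop atTop :=
      (tendsto_natCast_atTop_atTop).atTop_div_const hr0
    exact (tendsto_rpow_atTop_of_base_gt_one q hq).comp h2
  have h2 : Tendsto (fun j : ℕ => ((bet q r (j + 1) : ℕ) : ℝ) ^ r / q ^ j) atTop (𝓝 1) := by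
    have h3 := ((tendsto_nat_floor_div_atTop (R := ℝ)).comp h1).pow r
    rw [one_pow] at h3
    refine h3.congr fun j => ?_
    simp only [Function.comp]
    rw [div_pow, pow_rpow q hq r hr, Real.rpow_natCast]
    rfl
  have h3 : Tendsto (fun j : ℕ => ((bet q r j : ℕ) : ℝ) ^ r / q ^ j) atTop (𝓝 (1 / q)) := by
    rw [← tendsto_add_atTop_iff_nat 1]
    have h4 := h2.mul_const (1 / q)
    rw [one_mul] at h4
    refine h4.congr fun j => ?_
    rw [pow_succ]
    field_simp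
  refine (h2.sub h3).congr fun j => ?_
  ring

end

end Pool.Agent.Q227.EO
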