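import Pool.Agent.Q35.EO.Stm
import Pool.Agent.Q227.EO.HypA
import Pool.Agent.Q227.EO.HypB
import Pool.Agent.Q227.EO.HypC

/-!
EO-HYP: the hyperbola method (abstract).
-/

set_option autoImplicit false

namespace Pool.Agent.Q227.EO

open Finset Function Filter Topology

section HypD

variable {ι : Type} [Fintype ι] [DecidableEq ι]

/-- The cells. -/
noncomputable def cel (q : ℝ) (r : ι → ℕ) (j : ι → ℕ) : Finset (ι → ℕ) :=
  Fintype.piFinset fun l => Ioc (bet q (r l) (j l)) (bet q (r l) (j l + 1))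

theorem mem_cel {q : ℝ} {r : ι → ℕ} {j h : ι → ℕ} :
    h ∈ cel q r j ↔ ∀ l, bet q (r l) (j l) < h l ∧ h l ≤ bet q (r l) (j l + 1) := by
  unfold cel
  rw [Fintype.mem_piFinset]
  simp only [mem_Ioc]

/-- The sum over the cells with index at most `J`. -/
noncomputable def Aq (q : ℝ) (r : ι → ℕ) (f : (ι → ℕ) → ℝ) (J : ℕ) : ℝ :=
  ∑ n ∈ range (J + 1), ∑ j ∈ piAntidiag univ n, ∑ h ∈ cel q r j, f h

theorem cel_ne (q : ℝ) (hq : 1 < q) (r : ι → ℕ) (j j' h : ι → ℕ) (h1 : h ∈ cel q r j)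
    (h2 : h ∈ cel q r j') : j = j' := by
  rw [mem_cel] at h1 h2
  funext l
  exact bet_unique q hq (r l) (h l) _ _ (h1 l).1 (h1 l).2 (h2 l).1 (h2 l).2

theorem Aq_eq (q : ℝ) (hq : 1 < q) (r : ι → ℕ) (f : (ι → ℕ) → ℝ) (J : ℕ) :
    Aq q r f J = ∑ h ∈ (range (J + 1)).biUnion fun n => (piAntidiag univ n).biUnion (cel q r),
      f h := by
  unfold Aq
  rw [Finset.sum_biUnion]
  · refine Finset.sum_congr rfl fun n _ => ?_
    rw [Finset.sum_biUnion]
    intro j _ j' _ hne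
    rw [Function.onFun, Finset.disjoint_left]
    intro h h1 h2
    exact hne (cel_ne q hq r j j' h h1 h2)
  · intro n _ n' _ hne
    rw [Function.onFun, Finset.disjoint_left]
    intro h h1 h2
    rw [mem_biUnion] at h1 h2
    obtain ⟨j, hj, hj2⟩ := h1
    obtain ⟨j', hj', hj2'⟩ := h2
    have := cel_ne q hq r j j' h hj2 hj2'
    subst this
    rw [mem_piAntidiag] at hj hj'
    exact hne (hj.1.symm.trans hj'.1)

theorem mem_U (q : ℝ) (r : ι → ℕ) (J : ℕ) (h : ι → ℕ) :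
    (h ∈ (range (J + 1)).biUnion fun n => (piAntidiag univ n).biUnion (cel q r)) ↔
      ∃ j : ι → ℕ, ∑ l, j l ≤ J ∧ h ∈ cel q r j := by
  simp only [mem_biUnion, mem_range, mem_piAntidiag]
  constructor
  · rintro ⟨n, hn, j, ⟨hj, -⟩, hj2⟩
    have : ∑ l, j l = n := hj
    exact ⟨j, by omega, hj2⟩
  · rintro ⟨j, hj, hj2⟩
    exact ⟨∑ l, j l, by omega, j, ⟨rfl, fun _ _ => mem_univ _⟩, hj2⟩

theorem prod_q (q : ℝ) (j : ι → ℕ) : ∏ l, q ^ j l = q ^ (∑ l, j l) :=
  Finset.prod_pow_eq_pow_sum _ _ _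

theorem low_sub (q : ℝ) (hq : 1 < q) (r : ι → ℕ) (hr : ∀ l, 1 ≤ r l) (J : ℕ) (B : ℝ)
    (hB : q ^ J ≤ B) (h j : ι → ℕ) (hj : ∑ l, j l ≤ J) (hh : h ∈ cel q r j) :
    (∀ l, 1 ≤ h l) ∧ ∏ l, (h l : ℝ) ^ r l ≤ B := by
  rw [mem_cel] at hh
  refine ⟨fun l => by have := (hh l).1; omega, ?_⟩
  refine le_trans ?_ hB
  calc ∏ l, (h l : ℝ) ^ r l ≤ ∏ l, q ^ j l := by
        refine Finset.prod_le_prod (fun l _ => by positivity) fun l _ => ?_
        refine le_trans ?_ (bet_pow_le q hq (r l) (hr l) (j l))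
        exact pow_le_pow_left₀ (by positivity) (by exact_mod_cast (hh l).2) _
    _ = q ^ (∑ l, j l) := prod_q q j
    _ ≤ q ^ J := pow_le_pow_right₀ hq.le hj

theorem up_sub (q : ℝ) (hq : 1 < q) (r : ι → ℕ) (hr : ∀ l, 1 ≤ r l) (J : ℕ) (B : ℝ)
    (hB : B < q ^ (J + 1)) (h : ι → ℕ) (h1 : ∀ l, 1 ≤ h l) (h2 : ∏ l, (h l : ℝ) ^ r l ≤ B) :
    ∃ j : ι → ℕ, ∑ l, j l ≤ J + Fintype.card ι ∧ h ∈ cel q r j := by
  choose j hj using fun l => exists_bet q hq (r l) (hr l) (h l) (h1 l)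
  refine ⟨j, ?_, mem_cel.2 hj⟩
  have e1 : q ^ (∑ l, j l) ≤ q ^ Fintype.card ι * ∏ l, (h l : ℝ) ^ r l := by
    rw [← prod_q]
    calc ∏ l, q ^ j l ≤ ∏ l, (q * (h l : ℝ) ^ r l) :=
          Finset.prod_le_prod (fun l _ => by positivity)
            fun l _ => lt_pow_of_bet_lt q hq (r l) (hr l) (j l) (h l) (hj l).1
      _ = _ := by rw [Finset.prod_mul_distrib]; simp
  have hq0 : 0 < q := by linarith
  have e2 : q ^ (∑ l, j l) < q ^ (Fintype.card ι + (J + 1)) := by
    rw [pow_add]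
    refine lt_of_le_of_lt e1 ?_
    exact mul_lt_mul_of_pos_left (lt_of_le_of_lt h2 hB) (by positivity)
  have e3 := (pow_lt_pow_iff_right₀ hq).1 e2
  omega

variable [Nonempty ι]

/-- The asymptotics of the sums over cells. -/
theorem A_asym (f : (ι → ℕ) → ℝ) (r : ι → ℕ) (R η C : ℝ) (hr : ∀ l, 1 ≤ r l) (hη : 0 < η)
    (hC : 0 ≤ C)
    (H : ∀ (b : ι → ℕ) (m : ℕ), 1 ≤ m → (∀ l, m ≤ b l) →
      |∑ h ∈ Fintype.piFinset fun l => Icc 1 (b l), f h - R * ∏ l, (b l : ℝ) ^ r l| ≤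
        C * (m : ℝ) ^ (-η) * ∏ l, (b l : ℝ) ^ r l) (q : ℝ) (hq : 1 < q) :
    Tendsto (fun J : ℕ => Aq q r f J / (q ^ J * (J : ℝ) ^ (Fintype.card ι - 1))) atTop
      (𝓝 (R * (1 - 1 / q) ^ (Fintype.card ι - 1) / (Fintype.card ι - 1).factorial)) := by
  have hq0 : 0 < q := by linarith
  have hs : 1 ≤ Fintype.card ι := Fintype.card_pos
  set a := Fintype.card ι - 1 with ha
  set u : ι → ℕ → ℝ := fun l j =>
    (((bet q (r l) (j + 1) : ℕ) : ℝ) ^ r l - ((bet q (r l) j : ℕ) : ℝ) ^ r l) / q ^ j with hu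
  set w : ι → ι → ℕ → ℝ := fun l0 l j => if l = l0 then (q ^ (-(η / r l))) ^ j else 1 with hw
  set t : ℕ → ℝ := fun n => (∑ j ∈ piAntidiag univ n, ∑ h ∈ cel q r j, f h) / q ^ n with ht
  have hA : ∀ J, Aq q r f J = ∑ n ∈ range (J + 1), q ^ n * t n := by
    intro J
    unfold Aq
    refine Finset.sum_congr rfl fun n _ => ?_
    rw [ht]
    have := (pow_pos hq0 n).ne'
    field_simp
  have hu' : ∀ l, Tendsto (u l) atTop (𝓝 (1 - 1 / q)) := fun l => bet_main q hq (r l) (hr l)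
  have hU := Cv_asym u (fun _ => 1 - 1 / q) hu' univ univ_nonempty
  rw [card_univ, prod_const, card_univ] at hU
  have hw' : ∀ l0 l, Tendsto (w l0 l) atTop (𝓝 (if l = l0 then 0 else 1)) := by
    intro l0 l
    rw [hw]
    by_cases hl : l = l0
    · simp only [hl, if_true]
      refine tendsto_pow_atTop_nhds_zero_of_lt_one (by positivity) ?_
      refine Real.rpow_lt_one_of_one_lt_of_neg hq ?_
      have : (0 : ℝ) < r l0 := by
        have := hr l0
        positivity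
      have : 0 < η / r l0 := by positivity
      linarith
    · simp only [hl, if_false]
      exact tendsto_const_nhds
  have hW : ∀ l0, Tendsto (fun n => Cv univ (w l0) n / wt a n) atTop (𝓝 0) := by
    intro l0
    have h1 := Cv_asym (w l0) (fun l => if l = l0 then (0 : ℝ) else 1) (hw' l0) univ
      univ_nonempty
    have hz : ∏ l, (if l = l0 then (0 : ℝ) else 1) = 0 :=
      Finset.prod_eq_zero (mem_univ l0) (if_pos rfl)
    rw [card_univ, hz] at h1
    exact h1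
  -- comparison
  have hcmp : ∀ n, |t n - R * Cv univ u n| ≤
      (2 : ℝ) ^ Fintype.card ι * (C * (2 * q) ^ η) * ∑ l0, Cv univ (w l0) n := by
    intro n
    have e1 : t n - R * Cv univ u n = ∑ j ∈ piAntidiag (univ : Finset ι) n,
        ((∑ h ∈ cel q r j, f h) / q ^ n - R * ∏ l, u l (j l)) := by
      rw [Finset.sum_sub_distrib, ht, ← Finset.sum_div, ← mul_sum]
      rfl
    have e2 : (2 : ℝ) ^ Fintype.card ι * (C * (2 * q) ^ η) * ∑ l0, Cv univ (w l0) n =
        ∑ j ∈ piAntidiag (univ : Finset ι) n, (2 : ℝ) ^ Fintype.card ι * (C * (2 * q) ^ η) *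
          ∑ l0, ∏ l, w l0 l (j l) := by
      unfold Cv
      rw [Finset.sum_comm, mul_sum]
    rw [e1, e2]
    refine (Finset.abs_sum_le_sum_abs _ _).trans (Finset.sum_le_sum fun j hj => ?_)
    rw [mem_piAntidiag] at hj
    have hjn : ∑ l, j l = n := hj.1
    have hqn : 0 < q ^ n := pow_pos hq0 n
    have e3 := cell_est f r R η C hr hη hC H (fun l => bet q (r l) (j l))
      (fun l => bet q (r l) (j l + 1)) (fun l => bet_le_succ q hq (r l) (j l))
    have e4 : ∏ l, (((bet q (r l) (j l + 1) : ℕ) : ℝ) ^ r l - ((bet q (r l) (j l) : ℕ) : ℝ) ^ r l)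
        = q ^ n * ∏ l, u l (j l) := by
      rw [hu, Finset.prod_div_distrib, prod_q, hjn]
      field_simp
    have e5 : ∏ l, ((bet q (r l) (j l + 1) : ℕ) : ℝ) ^ r l ≤ q ^ n := by
      rw [← hjn, ← prod_q]
      exact Finset.prod_le_prod (fun l _ => by positivity)
        fun l _ => bet_pow_le q hq (r l) (hr l) (j l)
    have e6 : ∑ l, ((max 1 (bet q (r l) (j l)) : ℕ) : ℝ) ^ (-η) ≤
        (2 * q) ^ η * ∑ l0, ∏ l, w l0 l (j l) := by
      rw [mul_sum]
      refine Finset.sum_le_sum fun l0 _ => ?_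
      have e7 : ∏ l, w l0 l (j l) = (q ^ (-(η / r l0))) ^ j l0 := by
        rw [hw]
        simp only [Finset.prod_ite_eq', mem_univ, if_true]
      rw [e7]
      exact bet_err q hq (r l0) (hr l0) η hη (j l0)
    rw [e4] at e3
    have e8 : (∑ h ∈ cel q r j, f h) / q ^ n - R * ∏ l, u l (j l) =
        (∑ h ∈ cel q r j, f h - R * (q ^ n * ∏ l, u l (j l))) / q ^ n := by
      field_simp
    rw [e8, abs_div, abs_of_pos hqn, div_le_iff₀ hqn]
    refine e3.trans ?_
    have h7 : (0 : ℝ) ≤ ∑ l, ((max 1 (bet q (r l) (j l)) : ℕ) : ℝ) ^ (-η) := by positivity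
    have h8 : (0 : ℝ) ≤ ∏ l, ((bet q (r l) (j l + 1) : ℕ) : ℝ) ^ r l := by positivity
    calc (2 : ℝ) ^ Fintype.card ι * (C * (∑ l, ((max 1 (bet q (r l) (j l)) : ℕ) : ℝ) ^ (-η)) *
          ∏ l, ((bet q (r l) (j l + 1) : ℕ) : ℝ) ^ r l)
        ≤ (2 : ℝ) ^ Fintype.card ι * (C * ((2 * q) ^ η * ∑ l0, ∏ l, w l0 l (j l)) * q ^ n) := by
          refine mul_le_mul_of_nonneg_left ?_ (by positivity)
          refine mul_le_mul (mul_le_mul_of_nonneg_left e6 hC) e5 h8 ?_
          exact mul_nonneg hC (h7.trans e6)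
      _ = _ := by ring
  have htl : Tendsto (fun n => t n / wt a n) atTop
      (𝓝 (R * (1 - 1 / q) ^ Fintype.card ι)) := by
    have h1 : Tendsto (fun n => (t n - R * Cv univ u n) / wt a n) atTop (𝓝 0) := by
      refine squeeze_zero_norm (a := fun n => (2 : ℝ) ^ Fintype.card ι * (C * (2 * q) ^ η) *
        ∑ l0, Cv univ (w l0) n / wt a n) (fun n => ?_) ?_
      · rw [Real.norm_eq_abs, abs_div, abs_of_pos (wt_pos a n), ← Finset.sum_div, ← mul_div_assoc]
        exact div_le_div_of_nonneg_right (hcmp n) (wt_pos a n).le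
      · have h2 := (tendsto_finsetSum (univ : Finset ι) fun l0 _ => hW l0).const_mul
          ((2 : ℝ) ^ Fintype.card ι * (C * (2 * q) ^ η))
        simpa using h2
    have h3 := h1.add (hU.const_mul R)
    rw [zero_add] at h3
    refine h3.congr fun n => ?_
    ring
  have h1 := geo_asym a q hq t _ htl
  have e : R * (1 - 1 / q) ^ Fintype.card ι * (q / (q - 1)) / (a.factorial : ℝ) =
      R * (1 - 1 / q) ^ a / (a.factorial : ℝ) := by
    have h2 : Fintype.card ι = a + 1 := by omega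
    rw [h2, pow_succ]
    have h3 : (1 - 1 / q) * (q / (q - 1)) = 1 := by
      have : q - 1 ≠ 0 := by linarith
      field_simp
    calc R * ((1 - 1 / q) ^ a * (1 - 1 / q)) * (q / (q - 1)) / (a.factorial : ℝ)
        = R * (1 - 1 / q) ^ a * ((1 - 1 / q) * (q / (q - 1))) / (a.factorial : ℝ) := by ring
      _ = _ := by rw [h3, mul_one]
  rw [e] at h1
  refine h1.congr fun n => ?_
  rw [hA]

omit [Nonempty ι] in
/-- The sum over the region. -/
noncomputable def Sr (r : ι → ℕ) (f : (ι → ℕ) → ℝ) (B : ℝ) : ℝ :=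
  ∑ᶠ h ∈ {h : ι → ℕ | (∀ l, 1 ≤ h l) ∧ ∏ l, (h l : ℝ) ^ r l ≤ B}, f h

omit [Nonempty ι] in
theorem sandwich (r : ι → ℕ) (hr : ∀ l, 1 ≤ r l) (f : (ι → ℕ) → ℝ) (hf : ∀ h, 0 ≤ f h)
    (q : ℝ) (hq : 1 < q) (J : ℕ) (B : ℝ) (h1 : q ^ J ≤ B) (h2 : B < q ^ (J + 1)) :
    Aq q r f J ≤ Sr r f B ∧ Sr r f B ≤ Aq q r f (J + Fintype.card ι) := by
  have hsub : {h : ι → ℕ | (∀ l, 1 ≤ h l) ∧ ∏ l, (h l : ℝ) ^ r l ≤ B} ⊆
      (((range (J + Fintype.card ι + 1)).biUnion fun n => (piAntidiag univ n).biUnion (cel q r) :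
        Finset (ι → ℕ)) : Set (ι → ℕ)) := by
    rintro h ⟨ha, hb⟩
    rw [mem_coe, mem_U]
    exact up_sub q hq r hr J B h2 h ha hb
  have hfin : {h : ι → ℕ | (∀ l, 1 ≤ h l) ∧ ∏ l, (h l : ℝ) ^ r l ≤ B}.Finite :=
    (Finset.finite_toSet _).subset hsub
  have e : Sr r f B = ∑ h ∈ hfin.toFinset, f h := by
    unfold Sr
    rw [finsum_mem_eq_finite_toFinset_sum _ hfin]
  rw [e, Aq_eq q hq, Aq_eq q hq]
  constructor
  · refine Finset.sum_le_sum_of_subset_of_nonneg ?_ fun h _ _ => hf h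
    intro h hh
    rw [mem_U] at hh
    obtain ⟨j, hj, hj2⟩ := hh
    rw [Set.Finite.mem_toFinset]
    exact low_sub q hq r hr J B h1 h j hj hj2
  · refine Finset.sum_le_sum_of_subset_of_nonneg ?_ fun h _ _ => hf h
    intro h hh
    rw [Set.Finite.mem_toFinset] at hh
    exact mem_coe.1 (hsub hh)

end HypD

theorem kappa_tendsto : Tendsto (fun q : ℝ => (1 - 1 / q) / Real.log q) (𝓝[>] 1) (𝓝 1) := by
  have h1 : Tendsto (fun q : ℝ => Real.log q / (q - 1)) (𝓝[>] 1) (𝓝 1) := by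
    have h2 := (hasDerivAt_iff_tendsto_slope.1 (Real.hasDerivAt_log one_ne_zero))
    rw [inv_one] at h2
    have h3 := h2.mono_left (nhdsWithin_mono 1 (fun x (hx : 1 < x) => ne_of_gt hx))
    refine h3.congr fun q => ?_
    rw [slope_def_field, Real.log_one, sub_zero]
  have h4 : Tendsto (fun q : ℝ => 1 / q) (𝓝[>] 1) (𝓝 (1 / 1)) :=
    (tendsto_const_nhds.div (tendsto_id.mono_left nhdsWithin_le_nhds) one_ne_zero)
  have h5 := h4.div h1 one_ne_zero
  norm_num at h5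
  refine h5.congr' ?_
  filter_upwards [self_mem_nhdsWithin] with q hq
  have hq1 : (1 : ℝ) < q := hq
  have hlog : Real.log q ≠ 0 := (Real.log_pos hq1).ne'
  have : q - 1 ≠ 0 := by linarith
  simp only [Pi.div_apply]
  field_simp

theorem id_tendsto : Tendsto (fun q : ℝ => q) (𝓝[>] 1) (𝓝 1) :=
  tendsto_id.mono_left nhdsWithin_le_nhds

theorem hyp : Pool.Agent.Q35.EO.S_HYP := by
  intro ι _ _ r f R η C hcard hr hf hη hC H
  have hne : Nonempty ι := Fintype.card_pos_iff.1 hcard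
  have hS : ∀ B : ℝ, (∑ᶠ h ∈ {h : ι → ℕ | (∀ l, 1 ≤ h l) ∧ ∏ l, (h l : ℝ) ^ r l ≤ B}, f h) =
      Sr r f B := fun B => rfl
  simp only [hS]
  set s := Fintype.card ι with hs
  set a := s - 1 with ha
  have hAsym : ∀ q : ℝ, 1 < q → Tendsto (fun J : ℕ => Aq q r f J / (q ^ J * (J : ℝ) ^ a)) atTop
      (𝓝 (R * (1 - 1 / q) ^ a / a.factorial)) := fun q hq => A_asym f r R η C hr hη hC H q hq
  have hAnn : ∀ (q : ℝ) (J : ℕ), 0 ≤ Aq q r f J := fun q J =>
    Finset.sum_nonneg fun n _ => Finset.sum_nonneg fun j _ => Finset.sum_nonneg fun h _ => hf h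
  -- the index
  have hJ : ∀ q : ℝ, 1 < q → Tendsto (fun B : ℝ => ⌊Real.log B / Real.log q⌋₊) atTop atTop := by
    intro q hq
    exact tendsto_nat_floor_atTop.comp
      ((Real.tendsto_log_atTop).atTop_div_const (Real.log_pos hq))
  have hJB : ∀ q : ℝ, 1 < q → ∀ B : ℝ, 1 ≤ B →
      q ^ ⌊Real.log B / Real.log q⌋₊ ≤ B ∧ B < q ^ (⌊Real.log B / Real.log q⌋₊ + 1) ∧
      (⌊Real.log B / Real.log q⌋₊ : ℝ) * Real.log q ≤ Real.log B ∧
      Real.log B ≤ ((⌊Real.log B / Real.log q⌋₊ : ℝ) + 1) * Real.log q := by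
    intro q hq B hB
    have hlq := Real.log_pos hq
    have hlB : 0 ≤ Real.log B := Real.log_nonneg hB
    have hB0 : 0 < B := by linarith
    have hq0 : 0 < q := by linarith
    have e1 : (⌊Real.log B / Real.log q⌋₊ : ℝ) ≤ Real.log B / Real.log q :=
      Nat.floor_le (by positivity)
    have e2 : Real.log B / Real.log q < (⌊Real.log B / Real.log q⌋₊ : ℝ) + 1 :=
      Nat.lt_floor_add_one _
    rw [le_div_iff₀ hlq] at e1
    rw [div_lt_iff₀ hlq] at e2
    refine ⟨?_, ?_, e1, e2.le⟩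
    · rw [← Real.log_le_log_iff (by positivity) hB0, Real.log_pow]
      exact e1
    · rw [← Real.log_lt_log_iff hB0 (by positivity), Real.log_pow]
      push_cast
      exact e2
  refine tendsto_order.2 ⟨fun L hL => ?_, fun U hU => ?_⟩
  · -- lower bound
    have h1 : Tendsto (fun q : ℝ => R / (a.factorial : ℝ) * ((1 - 1 / q) / Real.log q) ^ a / q)
        (𝓝[>] 1) (𝓝 (R / (a.factorial : ℝ) * 1 ^ a / 1)) :=
      ((tendsto_const_nhds.mul (kappa_tendsto.pow a)).div id_tendsto one_ne_zero)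
    rw [one_pow, mul_one, div_one] at h1
    obtain ⟨q, hq1, hq2⟩ := ((h1.eventually (lt_mem_nhds hL)).and self_mem_nhdsWithin).exists
    have hq : 1 < q := hq2
    have hq0 : 0 < q := by linarith
    have hlq := Real.log_pos hq
    have h2 := hAsym q hq
    have h3 : Tendsto (fun J : ℕ => ((J : ℝ) / (J + 1)) ^ a) atTop (𝓝 (1 ^ a)) := by
      have h4 := (tendsto_lin 0).inv₀ one_ne_zero
      rw [inv_one] at h4
      refine (h4.congr fun n => ?_).pow a
      simp
    have h5 : Tendsto (fun J : ℕ => Aq q r f J / (q ^ (J + 1) * (((J : ℝ) + 1) * Real.log q) ^ a))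
        atTop (𝓝 (R / (a.factorial : ℝ) * ((1 - 1 / q) / Real.log q) ^ a / q)) := by
      have h6 := (h2.mul h3).mul_const (1 / (q * Real.log q ^ a))
      have e : R * (1 - 1 / q) ^ a / (a.factorial : ℝ) * 1 ^ a * (1 / (q * Real.log q ^ a)) =
          R / (a.factorial : ℝ) * ((1 - 1 / q) / Real.log q) ^ a / q := by
        rw [one_pow, div_pow]
        field_simp
      rw [e] at h6
      refine h6.congr' ?_
      filter_upwards [eventually_ge_atTop 1] with J hJ1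
      have : (J : ℝ) ≠ 0 := by positivity
      have : (J : ℝ) + 1 ≠ 0 := by positivity
      rw [mul_pow, div_pow, pow_succ]
      field_simp
    have h7 := (h5.comp (hJ q hq)).eventually (lt_mem_nhds hq1)
    filter_upwards [h7, eventually_gt_atTop 1] with B hB1 hB2
    obtain ⟨g1, g2, g3, g4⟩ := hJB q hq B hB2.le
    refine lt_of_lt_of_le hB1 ?_
    simp only [Function.comp]
    have hlB : 0 < Real.log B := Real.log_pos hB2
    refine div_le_div₀ ((hAnn q _).trans (sandwich r hr f hf q hq _ B g1 g2).1)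
      (sandwich r hr f hf q hq _ B g1 g2).1 (by positivity) ?_
    exact mul_le_mul g2.le (pow_le_pow_left₀ hlB.le g4 a) (by positivity) (by positivity)
  · -- upper bound
    have h1 : Tendsto (fun q : ℝ => R / (a.factorial : ℝ) * ((1 - 1 / q) / Real.log q) ^ a * q ^ s)
        (𝓝[>] 1) (𝓝 (R / (a.factorial : ℝ) * 1 ^ a * 1 ^ s)) :=
      ((tendsto_const_nhds.mul (kappa_tendsto.pow a)).mul (id_tendsto.pow s))
    rw [one_pow, one_pow, mul_one, mul_one] at h1
    obtain ⟨q, hq1, hq2⟩ := ((h1.eventually (gt_mem_nhds hU)).and self_mem_nhdsWithin).exists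
    have hq : 1 < q := hq2
    have hq0 : 0 < q := by linarith
    have hlq := Real.log_pos hq
    have h2 := (hAsym q hq).comp (tendsto_add_atTop_nat s)
    have h3 : Tendsto (fun J : ℕ => (((J : ℝ) + s) / J) ^ a) atTop (𝓝 (1 ^ a)) := by
      have h4 := tendsto_lin (s - 1)
      refine (h4.congr fun n => ?_).pow a
      have : ((s - 1 : ℕ) : ℝ) = s - 1 := by
        rw [Nat.cast_sub hcard]; simp
      rw [this]
      congr 1
      ring
    have h5 : Tendsto (fun J : ℕ => Aq q r f (J + s) / (q ^ J * ((J : ℝ) * Real.log q) ^ a))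
        atTop (𝓝 (R / (a.factorial : ℝ) * ((1 - 1 / q) / Real.log q) ^ a * q ^ s)) := by
      have h6 := (h2.mul h3).mul_const (q ^ s / Real.log q ^ a)
      have e : R * (1 - 1 / q) ^ a / (a.factorial : ℝ) * 1 ^ a * (q ^ s / Real.log q ^ a) =
          R / (a.factorial : ℝ) * ((1 - 1 / q) / Real.log q) ^ a * q ^ s := by
        rw [one_pow, div_pow]
        field_simp
      rw [e] at h6
      refine h6.congr' ?_
      filter_upwards [eventually_ge_atTop 1] with J hJ1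
      have : (J : ℝ) ≠ 0 := by positivity
      have : (J : ℝ) + s ≠ 0 := by positivity
      simp only [Function.comp]
      push_cast
      rw [mul_pow, div_pow, pow_add]
      field_simp
    have h7 := (h5.comp (hJ q hq)).eventually (gt_mem_nhds hq1)
    filter_upwards [h7, eventually_gt_atTop 1, (hJ q hq).eventually_ge_atTop 1] with B hB1 hB2 hB3
    obtain ⟨g1, g2, g3, g4⟩ := hJB q hq B hB2.le
    refine lt_of_le_of_lt ?_ hB1
    simp only [Function.comp]
    have hlB : 0 < Real.log B := Real.log_pos hB2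
    have hJpos : (0 : ℝ) < ⌊Real.log B / Real.log q⌋₊ := by exact_mod_cast hB3
    refine div_le_div₀ (hAnn q _) (sandwich r hr f hf q hq _ B g1 g2).2 (by positivity) ?_
    exact mul_le_mul g1 (pow_le_pow_left₀ (by positivity) g3 a) (by positivity) (by linarith)

end Pool.Agent.Q227.EO
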